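import Pool.Agent.QC.Cyc.Eta

/-!
# MP_7c50a9_lc, section 4: real frames

`shX c` carries frame `0` to frame `c`; `Pr.shX` and `Pr.frame` of Cyc/Iface.lean.
-/

namespace Pool.Agent.QC.Cyc

open MvPolynomial Filter Topology Set

variable {n l : ℕ} {P : Prm} {q : RTup n l} {O : Set (Fin (n + 1) → ℝ)}

@[simp] theorem shX_castSucc (c : Fin n → ℝ) (x : Fin (n + 1) → ℝ) (i : Fin n) :
    shX c x i.castSucc = x i.castSucc := by
  simp [shX]

@[simp] theorem shX_last (c : Fin n → ℝ) (x : Fin (n + 1) → ℝ) :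
    shX c x (Fin.last n) = x (Fin.last n) + ∑ i : Fin n, c i * x i.castSucc := by
  simp [shX]

theorem shX_add (c d : Fin n → ℝ) (x : Fin (n + 1) → ℝ) : shX c (shX d x) = shX (c + d) x := by
  funext i
  refine Fin.lastCases ?_ (fun j => ?_) i
  · rw [shX_last, shX_last, shX_last]
    simp only [shX_castSucc, Pi.add_apply, add_mul, Finset.sum_add_distrib]
    ring
  · rw [shX_castSucc, shX_castSucc, shX_castSucc]

theorem shX_zero (x : Fin (n + 1) → ℝ) : shX 0 x = x := by
  funext i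
  refine Fin.lastCases ?_ (fun j => ?_) i
  · simp
  · simp

theorem shX_neg (c : Fin n → ℝ) (x : Fin (n + 1) → ℝ) : shX (-c) (shX c x) = x := by
  rw [shX_add, neg_add_cancel, shX_zero]

theorem shX_neg' (c : Fin n → ℝ) (x : Fin (n + 1) → ℝ) : shX c (shX (-c) x) = x := by
  rw [shX_add, add_neg_cancel, shX_zero]

theorem continuous_shX2 {X : Type*} [TopologicalSpace X] {c : X → Fin n → ℝ}
    {x : X → Fin (n + 1) → ℝ} (hc : Continuous c) (hx : Continuous x) :
    Continuous fun s => shX (c s) (x s) := by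
  have h4 : ∀ i, Continuous fun s => x s i := fun i => (continuous_apply i).comp hx
  have h5 : ∀ i, Continuous fun s => c s i := fun i => (continuous_apply i).comp hc
  refine continuous_pi fun i => ?_
  refine Fin.lastCases ?_ (fun j => ?_) i
  · simp only [shX_last]
    exact (h4 _).add (continuous_finsetSum _ fun i _ => (h5 i).mul (h4 _))
  · simp only [shX_castSucc]
    exact h4 _

/-- the homeomorphism `(s, x) ↦ (s, shX (c s) x)` -/
def shHomeo {X : Type*} [TopologicalSpace X] (c : X → Fin n → ℝ) (hc : Continuous c) :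
    X × (Fin (n + 1) → ℝ) ≃ₜ X × (Fin (n + 1) → ℝ) where
  toFun p := (p.1, shX (c p.1) p.2)
  invFun p := (p.1, shX (-c p.1) p.2)
  left_inv p := by
    simp only [shX_neg]
  right_inv p := by
    simp only [shX_neg']
  continuous_toFun := continuous_fst.prodMk
    (continuous_shX2 (hc.comp continuous_fst) continuous_snd)
  continuous_invFun := continuous_fst.prodMk
    (continuous_shX2 (hc.neg.comp continuous_fst) continuous_snd)

/-- the homeomorphism `shX c` -/
def shHomeo1 (c : Fin n → ℝ) : (Fin (n + 1) → ℝ) ≃ₜ (Fin (n + 1) → ℝ) where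
  toFun := shX c
  invFun := shX (-c)
  left_inv := shX_neg c
  right_inv := shX_neg' c
  continuous_toFun := continuous_shX2 continuous_const continuous_id
  continuous_invFun := continuous_shX2 continuous_const continuous_id

theorem image_shX (c : Fin n → ℝ) (O : Set (Fin (n + 1) → ℝ)) :
    shX c '' O = shX (-c) ⁻¹' O := by
  ext x
  constructor
  · rintro ⟨y, hy, rfl⟩
    show shX (-c) (shX c y) ∈ O
    rwa [shX_neg]
  · intro hx
    exact ⟨shX (-c) x, hx, shX_neg' c x⟩

/-- Values in the frames. -/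
theorem qvR_shQ (c : Fin n → ℝ) (p : QP ℝ (n + 1)) (x : Fin (n + 1) → ℝ) :
    qvR (shQ c p) (shX c x) = qvR p x := by
  obtain ⟨A, B, C⟩ := p
  simp only [qvR, shQ, Fin.sum_univ_castSucc, shX_castSucc, shX_last, Fin.snoc_castSucc,
    Fin.snoc_last, zero_mul, mul_zero, sub_zero, add_zero]
  set s := ∑ i : Fin n, c i * x i.castSucc with hs
  have e1 : ∑ i : Fin n, ∑ j : Fin n, (A i.castSucc j.castSucc - c i * A (Fin.last n) j.castSucc -
        A i.castSucc (Fin.last n) * c j + c i * c j * A (Fin.last n) (Fin.last n)) *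
        x i.castSucc * x j.castSucc =
      (∑ i : Fin n, ∑ j : Fin n, A i.castSucc j.castSucc * x i.castSucc * x j.castSucc) -
      s * (∑ j : Fin n, A (Fin.last n) j.castSucc * x j.castSucc) -
      (∑ i : Fin n, A i.castSucc (Fin.last n) * x i.castSucc) * s +
      s * s * A (Fin.last n) (Fin.last n) := by
    have h1 : s * (∑ j : Fin n, A (Fin.last n) j.castSucc * x j.castSucc) =
        ∑ i : Fin n, ∑ j : Fin n, c i * x i.castSucc * (A (Fin.last n) j.castSucc *
          x j.castSucc) := by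
      rw [hs, Finset.sum_mul_sum]
    have h2 : (∑ i : Fin n, A i.castSucc (Fin.last n) * x i.castSucc) * s =
        ∑ i : Fin n, ∑ j : Fin n, A i.castSucc (Fin.last n) * x i.castSucc *
          (c j * x j.castSucc) := by
      rw [hs, Finset.sum_mul_sum]
    have h3 : s * s * A (Fin.last n) (Fin.last n) =
        ∑ i : Fin n, ∑ j : Fin n, c i * x i.castSucc * (c j * x j.castSucc) *
          A (Fin.last n) (Fin.last n) := by
      rw [hs, Finset.sum_mul_sum, Finset.sum_mul]
      simp only [Finset.sum_mul]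
    rw [h1, h2, h3, ← Finset.sum_sub_distrib, ← Finset.sum_sub_distrib, ← Finset.sum_add_distrib]
    refine Finset.sum_congr rfl fun i _ => ?_
    rw [← Finset.sum_sub_distrib, ← Finset.sum_sub_distrib, ← Finset.sum_add_distrib]
    refine Finset.sum_congr rfl fun j _ => ?_
    ring
  have e2 : ∑ i : Fin n, (A i.castSucc (Fin.last n) - c i * A (Fin.last n) (Fin.last n)) *
        x i.castSucc * (x (Fin.last n) + s) =
      ((∑ i : Fin n, A i.castSucc (Fin.last n) * x i.castSucc) -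
        s * A (Fin.last n) (Fin.last n)) * (x (Fin.last n) + s) := by
    rw [hs, Finset.sum_mul, ← Finset.sum_sub_distrib, Finset.sum_mul]
    refine Finset.sum_congr rfl fun i _ => ?_
    ring
  have e3 : ∑ j : Fin n, (A (Fin.last n) j.castSucc - A (Fin.last n) (Fin.last n) * c j) *
        (x (Fin.last n) + s) * x j.castSucc =
      ((∑ j : Fin n, A (Fin.last n) j.castSucc * x j.castSucc) -
        s * A (Fin.last n) (Fin.last n)) * (x (Fin.last n) + s) := by
    rw [hs, Finset.sum_mul, ← Finset.sum_sub_distrib, Finset.sum_mul]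
    refine Finset.sum_congr rfl fun i _ => ?_
    ring
  have e4 : ∑ i : Fin n, (B i.castSucc - c i * B (Fin.last n)) * x i.castSucc =
      (∑ i : Fin n, B i.castSucc * x i.castSucc) - s * B (Fin.last n) := by
    rw [hs, Finset.sum_mul, ← Finset.sum_sub_distrib]
    refine Finset.sum_congr rfl fun i _ => ?_
    ring
  have e5 : ∑ i : Fin n, A i.castSucc (Fin.last n) * x i.castSucc * x (Fin.last n) =
      (∑ i : Fin n, A i.castSucc (Fin.last n) * x i.castSucc) * x (Fin.last n) := by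
    rw [Finset.sum_mul]
  have e6 : ∑ j : Fin n, A (Fin.last n) j.castSucc * x (Fin.last n) * x j.castSucc =
      (∑ j : Fin n, A (Fin.last n) j.castSucc * x j.castSucc) * x (Fin.last n) := by
    rw [Finset.sum_mul]
    refine Finset.sum_congr rfl fun i _ => ?_
    ring
  rw [Finset.sum_add_distrib, Finset.sum_add_distrib, e1, e2, e3, e4, e5, e6]
  ring

theorem fR0_shT (c : Fin n → ℝ) (q : RTup n l) (x : Fin (n + 1) → ℝ) :
    fR 0 0 (shT c q) (shX c x) = fR 0 0 q x := by
  rw [fR_zero, fR_zero]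
  simp only [shT, qvR_shQ]

theorem inOm_shT (c : Fin n → ℝ) (q : RTup n l) (x : Fin (n + 1) → ℝ) :
    inOm (shT c q) (shX c x) ↔ inOm q x := by
  simp only [inOm, shT, qvR_shQ]

theorem image_K (q : RTup n l) (O : Set (Fin (n + 1) → ℝ)) (c : Fin n → ℝ) :
    {x | x ∈ shX c '' O ∧ 0 ≤ fR 0 0 (shT c q) x} = shX c '' {x ∈ O | 0 ≤ fR 0 0 q x} := by
  ext x
  constructor
  · rintro ⟨⟨y, hy, rfl⟩, hx⟩
    rw [fR0_shT] at hx
    exact ⟨y, ⟨hy, hx⟩, rfl⟩
  · rintro ⟨y, ⟨hy, hx⟩, rfl⟩
    exact ⟨⟨y, hy, rfl⟩, by rwa [fR0_shT]⟩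

theorem Pr_shX (h : Pr q O) (c : Fin n → ℝ) : Pr (shT c q) (shX c '' O) where
  isOpen := (shHomeo1 c).isOpenMap _ h.isOpen
  sub := by
    rintro _ ⟨y, hy, rfl⟩
    exact (inOm_shT c q y).2 (h.sub y hy)
  compact := by
    have h1 := image_K q O c
    rw [h1]
    exact h.compact.image (shHomeo1 c).continuous

/-- the frame family -/
def TF (P : Prm) (q : RTup n l) (O : Set (Fin (n + 1) → ℝ)) (c : Fin n → ℝ) :
    Set (ℝ × (Fin (n + 1) → ℝ)) :=
  {p | p.2 ∈ cyc P (shT (p.1 • c) q) (shX (p.1 • c) '' O)}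

/-- the inverse frame map -/
def iF (c : Fin n → ℝ) (p : ℝ × (Fin (n + 1) → ℝ)) : Fin (n + 1) → ℝ := shX (-(p.1 • c)) p.2

theorem continuous_iF (c : Fin n → ℝ) : Continuous (iF c) :=
  continuous_shX2 (by fun_prop) continuous_snd

theorem contDiff_shT (q : RTup n l) (c : Fin n → ℝ) :
    ContDiff ℝ ⊤ fun s : ℝ => shT (s • c) q := by
  have hd : ∀ i : Fin (n + 1), ContDiff ℝ ⊤
      fun s : ℝ => (Fin.snoc (s • c) 0 : Fin (n + 1) → ℝ) i := by
    intro i
    refine Fin.lastCases ?_ (fun j => ?_) i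
    · simpa using contDiff_const
    · simpa using contDiff_id.mul contDiff_const
  rw [contDiff_pi]
  intro m
  unfold shT shQ
  refine ContDiff.prodMk ?_ (ContDiff.prodMk ?_ contDiff_const)
  · rw [contDiff_pi]
    intro i
    rw [contDiff_pi]
    intro j
    exact ((contDiff_const.sub ((hd i).mul contDiff_const)).sub
      (contDiff_const.mul (hd j))).add (((hd i).mul (hd j)).mul contDiff_const)
  · rw [contDiff_pi]
    intro i
    exact contDiff_const.sub ((hd i).mul contDiff_const)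

theorem continuous_fF (P : Prm) (q : RTup n l) (c : Fin n → ℝ) :
    Continuous fun p : ℝ × (Fin (n + 1) → ℝ) => fR P.en P.eta (shT (p.1 • c) q) p.2 :=
  continuous_fR2 ((contDiff_shT q c).continuous.comp continuous_fst) continuous_snd _ _

theorem mem_TF {c : Fin n → ℝ} {p : ℝ × (Fin (n + 1) → ℝ)} :
    p ∈ TF P q O c ↔ iF c p ∈ O ∧ 0 < fR P.en P.eta (shT (p.1 • c) q) p.2 := by
  have h1 : p.2 ∈ shX (p.1 • c) '' O ↔ iF c p ∈ O := by
    rw [image_shX]
    rfl
  constructor
  · rintro ⟨h2, h3⟩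
    exact ⟨h1.1 h2, h3⟩
  · rintro ⟨h2, h3⟩
    exact ⟨h1.2 h2, h3⟩

theorem isOpen_TF (hO : IsOpen O) (c : Fin n → ℝ) : IsOpen (TF P q O c) := by
  have : TF P q O c = iF c ⁻¹' O ∩ {p | 0 < fR P.en P.eta (shT (p.1 • c) q) p.2} := by
    ext p
    exact mem_TF
  rw [this]
  exact (hO.preimage (continuous_iF c)).inter (isOpen_lt continuous_const (continuous_fF P q c))

theorem iF_mem_K {c : Fin n → ℝ} {p : ℝ × (Fin (n + 1) → ℝ)} (hp : p ∈ TF P q O c) :
    iF c p ∈ {x | x ∈ O ∧ 0 ≤ fR 0 0 q x} := by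
  obtain ⟨h1, h2⟩ := mem_TF.1 hp
  refine ⟨h1, ?_⟩
  have h3 : fR 0 0 (shT (p.1 • c) q) p.2 = fR 0 0 q (iF c p) := by
    rw [← fR0_shT (p.1 • c) q (iF c p), iF, shX_neg']
  rw [← h3]
  exact h2.le.trans (fR_le P _ _)

theorem Pr_frame (h : Pr q O) (c : Fin n → ℝ) :
    RFam P univ (fun s => shT (s • c) q)
      {p | p.2 ∈ cyc P (shT (p.1 • c) q) (shX (p.1 • c) '' O)} := by
  have hcl : IsClosed (iF c ⁻¹' {x | x ∈ O ∧ 0 ≤ fR 0 0 q x}) :=
    h.compact.isClosed.preimage (continuous_iF c)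
  refine ⟨isOpen_univ, (contDiff_shT q c).contDiffOn.of_le (by exact_mod_cast le_top), ?_, ?_⟩
  · refine ⟨isOpen_univ.prod isOpen_univ, isOpen_TF h.isOpen c, fun p _ => ⟨mem_univ _, mem_univ _⟩,
      fun p hp => hp.2, ?_⟩
    intro p _ hx hx'
    have h2 : 0 ≤ fR P.en P.eta (shT (p.1 • c) q) p.2 := by
      have hcl2 : IsClosed {p : ℝ × (Fin (n + 1) → ℝ) |
          0 ≤ fR P.en P.eta (shT (p.1 • c) q) p.2} := isClosed_le continuous_const
        (continuous_fF P q c)
      have hsub : TF P q O c ⊆ {p : ℝ × (Fin (n + 1) → ℝ) |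
          0 ≤ fR P.en P.eta (shT (p.1 • c) q) p.2} := fun p hp => (mem_TF.1 hp).2.le
      exact closure_minimal hsub hcl2 hx
    have h1 : iF c p ∈ O := (closure_minimal (fun p hp => iF_mem_K hp) hcl hx).1
    exact le_antisymm (not_lt.mp fun hlt => hx' (mem_TF.2 ⟨h1, hlt⟩)) h2
  · intro s _
    have hK : IsCompact (Icc (s - 1) (s + 1) ×ˢ {x | x ∈ O ∧ 0 ≤ fR 0 0 q x}) :=
      isCompact_Icc.prod h.compact
    have hf : Continuous fun p : ℝ × (Fin (n + 1) → ℝ) => shX (p.1 • c) p.2 :=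
      continuous_shX2 (by fun_prop) continuous_snd
    obtain ⟨R, hR⟩ := (hK.image hf).isBounded.exists_norm_le
    refine ⟨1, one_pos, R, fun p hp hps => hR _ ⟨(p.1, iF c p), ⟨?_, iF_mem_K hp⟩, ?_⟩⟩
    · have := abs_lt.mp hps
      exact ⟨by linarith [this.1], by linarith [this.2]⟩
    · show shX (p.1 • c) (shX (-(p.1 • c)) p.2) = p.2
      rw [shX_neg']

end Pool.Agent.QC.Cyc
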