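import Pool.Agent.QC.Cyc.Eta

/-!
# MP_7c50a9_lc, section 4: the functionals `yU`, `JU` of a single piece

Proofs of `yU_apply`, `JU_apply`, `ymap_JU`, `yU_one_ne`, `JU_union`, and of `JU_out` from the
fact that `JU` is parallel on the annulus.
-/

namespace Pool.Agent.QC.Cyc

open MvPolynomial Filter Topology Set MeasureTheory

variable {n l : ℕ} {P : Prm}

/-! ## Linear functionals given by integrals -/

theorem fnlOf_monomial {m : ℕ} (φ : (Fin m →₀ ℕ) → ℂ) (s : Fin m →₀ ℕ) :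
    fnlOf φ (monomial s 1) = φ s := by
  have := (basisMonomials (Fin m) ℂ).constr_basis ℂ φ s
  simpa [fnlOf] using this

theorem fnl_ext {m : ℕ} {y y' : Fnl m} (h : ∀ s, y (monomial s 1) = y' (monomial s 1)) :
    y = y' := by
  refine (basisMonomials (Fin m) ℂ).ext fun s => ?_
  simpa using h s

theorem fnlOf_integral {m : ℕ} (A : (Fin m → ℝ) → Pol m →ₗ[ℂ] ℂ)
    (hint : ∀ Q, Integrable (fun x => A x Q)) (Q : Pol m) :
    fnlOf (fun s => ∫ x, A x (monomial s 1)) Q = ∫ x, A x Q := by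
  let L : Pol m →ₗ[ℂ] ℂ :=
    { toFun := fun Q => ∫ x, A x Q
      map_add' := fun Q Q' => by
        simp only [map_add]
        exact integral_add (hint Q) (hint Q')
      map_smul' := fun c Q => by
        simp only [map_smul, smul_eq_mul, RingHom.id_apply]
        exact integral_const_mul c _ }
  have : fnlOf (fun s => ∫ x, A x (monomial s 1)) = L := fnl_ext fun s => by
    rw [fnlOf_monomial]
    rfl
  rw [this]
  rfl

theorem continuous_xC {m : ℕ} : Continuous (xC : (Fin m → ℝ) → Fin m → ℂ) :=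
  continuous_pi fun i => Complex.continuous_ofReal.comp (continuous_apply i)

theorem continuous_eval_xC {m : ℕ} (Q : Pol m) : Continuous fun x : Fin m → ℝ => eval (xC x) Q :=
  (MvPolynomial.continuous_eval Q).comp continuous_xC

/-- evaluation at a real point as a linear map -/
noncomputable def evL {m : ℕ} (x : Fin m → ℝ) : Pol m →ₗ[ℂ] ℂ := (aeval (xC x)).toLinearMap

theorem evL_apply {m : ℕ} (x : Fin m → ℝ) (Q : Pol m) : evL x Q = eval (xC x) Q := by
  simp [evL, aeval_eq_eval]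

section Single

variable {q : RTup n l} {T : Set (Fin (n + 1) → ℝ)}

theorem integrable_mul (hT : S4.Piece (fR P.en P.eta q) T univ) (hc : IsCompact (closure T))
    {ψ : (Fin (n + 1) → ℝ) → ℂ} (hψ : ∀ x ∈ closure T, ContinuousAt ψ x) :
    Integrable fun x => ((S4.pw (fR P.en P.eta q) T P.a x : ℝ) : ℂ) * ψ x := by
  have h := hT.integrable volume hc (a := P.a) (by linarith [P.two_lt])
    (continuous_fR q P.en P.eta) hψ
  simpa only [Complex.real_smul] using h

theorem yU_apply (hT : S4.Piece (fR P.en P.eta q) T univ) (hc : IsCompact (closure T))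
    (Q : Pol (n + 1)) :
    yU P.a (fR P.en P.eta q) T Q =
      ∫ x, ((S4.pw (fR P.en P.eta q) T P.a x : ℝ) : ℂ) * eval (xC x) Q := by
  have h := fnlOf_integral
    (fun x => ((S4.pw (fR P.en P.eta q) T P.a x : ℝ) : ℂ) • evL x)
    (fun Q => by
      simp only [LinearMap.smul_apply, smul_eq_mul, evL_apply]
      exact integrable_mul hT hc fun x _ => (continuous_eval_xC Q).continuousAt) Q
  simp only [LinearMap.smul_apply, smul_eq_mul, evL_apply] at h
  exact h

theorem closure_abs_le {R : ℝ} (hR : ∀ x ∈ T, |x (Fin.last n)| ≤ R) :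
    ∀ x ∈ closure T, |x (Fin.last n)| ≤ R := by
  intro x hx
  have hcl : IsClosed {x : Fin (n + 1) → ℝ | |x (Fin.last n)| ≤ R} :=
    isClosed_le (continuous_apply _).abs continuous_const
  exact closure_minimal (fun x hx => hR x hx) hcl hx

theorem sub_ne {R : ℝ} {z : ℂ} (hz : z.im ≠ 0 ∨ R < |z.re|) {x : ℝ} (hx : |x| ≤ R) :
    (x : ℂ) - z ≠ 0 := by
  intro h
  have h1 : z = x := (sub_eq_zero.mp h).symm
  rcases hz with hz | hz
  · exact hz (by rw [h1]; simp)
  · rw [h1, Complex.ofReal_re] at hz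
    linarith

/-- the function `x ↦ Q(x) / (x_n - z)` -/
theorem continuousAt_div {R : ℝ} {z : ℂ} (hz : z.im ≠ 0 ∨ R < |z.re|) (Q : Pol (n + 1))
    {x : Fin (n + 1) → ℝ} (hx : |x (Fin.last n)| ≤ R) :
    ContinuousAt (fun x : Fin (n + 1) → ℝ => eval (xC x) Q / ((x (Fin.last n) : ℂ) - z)) x := by
  refine (continuous_eval_xC Q).continuousAt.div ?_ (sub_ne hz hx)
  exact ((Complex.continuous_ofReal.comp (continuous_apply _)).sub continuous_const).continuousAt

theorem JU_apply (hT : S4.Piece (fR P.en P.eta q) T univ) (hc : IsCompact (closure T)) {R : ℝ}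
    (hR : ∀ x ∈ T, |x (Fin.last n)| ≤ R) {z : ℂ} (hz : z.im ≠ 0 ∨ R < |z.re|)
    (Q : Pol (n + 1)) :
    JU P.a (fR P.en P.eta q) T z Q =
      ∫ x, ((S4.pw (fR P.en P.eta q) T P.a x : ℝ) : ℂ) * eval (xC x) (shift (-z) Q) /
        ((x (Fin.last n) : ℂ) - z) := by
  have h := fnlOf_integral
    (fun x => (((S4.pw (fR P.en P.eta q) T P.a x : ℝ) : ℂ) / ((x (Fin.last n) : ℂ) - z)) •
      (evL x ∘ₗ (shift (-z)).toLinearMap))
    (fun Q => by
      simp only [LinearMap.smul_apply, smul_eq_mul, LinearMap.comp_apply, evL_apply,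
        AlgHom.toLinearMap_apply]
      have := integrable_mul hT hc fun x hx =>
        continuousAt_div hz (shift (-z) Q) (closure_abs_le hR x hx)
      refine this.congr (Eventually.of_forall fun x => ?_)
      simp only
      ring) Q
  simp only [LinearMap.smul_apply, smul_eq_mul, LinearMap.comp_apply, evL_apply,
        AlgHom.toLinearMap_apply] at h
  have e : ∀ (x : Fin (n + 1) → ℝ) (Q : Pol (n + 1)),
      ((S4.pw (fR P.en P.eta q) T P.a x : ℝ) : ℂ) / ((x (Fin.last n) : ℂ) - z) *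
        eval (xC x) (shift (-z) Q) =
      ((S4.pw (fR P.en P.eta q) T P.a x : ℝ) : ℂ) * eval (xC x) (shift (-z) Q) /
        ((x (Fin.last n) : ℂ) - z) := fun x Q => by ring
  simp only [e] at h
  exact h

theorem shift_shift_neg (z : ℂ) (Q : Pol (n + 1)) : shift (-z) (shift z Q) = Q := by
  have h : (shift (-z)).comp (shift z) = AlgHom.id ℂ (Pol (n + 1)) := by
    refine MvPolynomial.algHom_ext fun i => ?_
    refine Fin.lastCases ?_ (fun j => ?_) i
    · simp [shift]
    · simp [shift]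
  exact congrArg (fun φ : Pol (n + 1) →ₐ[ℂ] Pol (n + 1) => φ Q) h

theorem eval_shift_neg_X (z : ℂ) (x : Fin (n + 1) → ℝ) :
    eval (xC x) (shift (-z) (X (Fin.last n) : Pol (n + 1))) = (x (Fin.last n) : ℂ) - z := by
  simp [shift, xC, sub_eq_add_neg]

/-- the basic identity for the values of `JU` on shifted polynomials -/
theorem JU_shift (hT : S4.Piece (fR P.en P.eta q) T univ) (hc : IsCompact (closure T)) {R : ℝ}
    (hR : ∀ x ∈ T, |x (Fin.last n)| ≤ R) {z : ℂ} (hz : z.im ≠ 0 ∨ R < |z.re|)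
    (Q : Pol (n + 1)) :
    JU P.a (fR P.en P.eta q) T z (shift z Q) =
      ∫ x, ((S4.pw (fR P.en P.eta q) T P.a x : ℝ) : ℂ) * eval (xC x) Q /
        ((x (Fin.last n) : ℂ) - z) := by
  rw [JU_apply hT hc hR hz]
  simp only [shift_shift_neg]

theorem ymap_JU (hT : S4.Piece (fR P.en P.eta q) T univ) (hc : IsCompact (closure T)) {R : ℝ}
    (hR : ∀ x ∈ T, |x (Fin.last n)| ≤ R) {z : ℂ} (hz : z.im ≠ 0 ∨ R < |z.re|) :
    ymap z (JU P.a (fR P.en P.eta q) T z) = yU P.a (fR P.en P.eta q) T := by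
  refine LinearMap.ext fun Q => ?_
  have h1 : ymap z (JU P.a (fR P.en P.eta q) T z) Q =
      JU P.a (fR P.en P.eta q) T z (X (Fin.last n) * shift z Q) := rfl
  rw [h1, JU_apply hT hc hR hz, yU_apply hT hc]
  refine integral_congr_ae (Eventually.of_forall fun x => ?_)
  simp only [map_mul, shift_shift_neg, eval_shift_neg_X]
  by_cases hx : x ∈ T
  · have := sub_ne hz (hR x hx)
    field_simp
  · rw [S4.pw_of_notMem hx]
    simp

theorem yU_one_ne (hT : S4.Piece (fR P.en P.eta q) T univ) (hc : IsCompact (closure T))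
    (hne : T.Nonempty) : yU P.a (fR P.en P.eta q) T 1 ≠ 0 := by
  rw [yU_apply hT hc]
  simp only [map_one, mul_one]
  have h1 : (∫ x, ((S4.pw (fR P.en P.eta q) T P.a x : ℝ) : ℂ)) =
      ((∫ x, S4.pw (fR P.en P.eta q) T P.a x : ℝ) : ℂ) := integral_ofReal
  rw [h1]
  have ha : 0 < P.a := by linarith [P.two_lt]
  have hcont : Continuous (S4.pw (fR P.en P.eta q) T P.a) :=
    continuous_iff_continuousAt.mpr fun x =>
      hT.continuousAt_pw ha (mem_univ x) (continuous_fR q P.en P.eta).continuousAt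
  obtain ⟨x, hx⟩ := hne
  have h2 : 0 < ∫ x, S4.pw (fR P.en P.eta q) T P.a x :=
    hcont.integral_pos_of_hasCompactSupport_nonneg_nonzero
      (HasCompactSupport.intro hc fun x hx => S4.pw_of_notMem fun hxT => hx (subset_closure hxT))
      (fun x => hT.pw_nonneg P.a x) (x := x) (hT.pw_pos P.a hx).ne'
  exact_mod_cast h2.ne'

theorem pw_biUnion {ι : Type*} (s : Finset ι) (U : ι → Set (Fin (n + 1) → ℝ))
    (hd : ∀ i ∈ s, ∀ j ∈ s, i ≠ j → Disjoint (U i) (U j)) (f : (Fin (n + 1) → ℝ) → ℝ) (a : ℝ)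
    (x : Fin (n + 1) → ℝ) : S4.pw f (⋃ i ∈ s, U i) a x = ∑ i ∈ s, S4.pw f (U i) a x := by
  by_cases hx : x ∈ ⋃ i ∈ s, U i
  · obtain ⟨i, hi, hxi⟩ := mem_iUnion₂.mp hx
    rw [S4.pw_of_mem hx, Finset.sum_eq_single_of_mem i hi, S4.pw_of_mem hxi]
    intro j hj hji
    exact S4.pw_of_notMem fun hxj => (disjoint_left.mp (hd j hj i hi hji)) hxj hxi
  · rw [S4.pw_of_notMem hx, Finset.sum_eq_zero]
    intro i hi
    exact S4.pw_of_notMem fun hxi => hx (mem_iUnion₂.mpr ⟨i, hi, hxi⟩)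

theorem JU_union {ι : Type*} (s : Finset ι) (U : ι → Set (Fin (n + 1) → ℝ))
    (hT : ∀ i ∈ s, S4.Piece (fR P.en P.eta q) (U i) univ)
    (hc : ∀ i ∈ s, IsCompact (closure (U i)))
    (hd : ∀ i ∈ s, ∀ j ∈ s, i ≠ j → Disjoint (U i) (U j)) {R : ℝ}
    (hR : ∀ i ∈ s, ∀ x ∈ U i, |x (Fin.last n)| ≤ R) {z : ℂ} (hz : z.im ≠ 0 ∨ R < |z.re|) :
    JU P.a (fR P.en P.eta q) (⋃ i ∈ s, U i) z = ∑ i ∈ s, JU P.a (fR P.en P.eta q) (U i) z := by
  refine fnl_ext fun d => ?_
  rw [LinearMap.sum_apply]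
  unfold JU
  simp only [fnlOf_monomial]
  rw [← integral_finsetSum]
  · refine integral_congr_ae (Eventually.of_forall fun x => ?_)
    simp only
    rw [pw_biUnion s U hd]
    push_cast
    rw [Finset.sum_mul, Finset.sum_div]
  · intro i hi
    have := integrable_mul (hT i hi) (hc i hi) fun x hx =>
      continuousAt_div hz (shift (-z) (monomial d 1)) (closure_abs_le (hR i hi) x hx)
    refine this.congr (Eventually.of_forall fun x => ?_)
    simp only
    ring

/-! ## OUT -/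

/-- `∫ f^a Q / (x_n - z)` -/
noncomputable def gQ (P : Prm) (q : RTup n l) (T : Set (Fin (n + 1) → ℝ)) (Q : Pol (n + 1))
    (z : ℂ) : ℂ :=
  ∫ x, ((S4.pw (fR P.en P.eta q) T P.a x : ℝ) : ℂ) * eval (xC x) Q / ((x (Fin.last n) : ℂ) - z)

theorem norm_sub_ge {R : ℝ} {x : ℝ} (hx : |x| ≤ R) (z : ℂ) : ‖z‖ - R ≤ ‖(x : ℂ) - z‖ := by
  have h1 := norm_sub_norm_le z (x : ℂ)
  rw [norm_sub_rev] at h1
  rw [Complex.norm_real, Real.norm_eq_abs] at h1
  linarith

theorem hasDerivAt_gQ (hT : S4.Piece (fR P.en P.eta q) T univ) (hc : IsCompact (closure T))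
    {R : ℝ} (hR : ∀ x ∈ T, |x (Fin.last n)| ≤ R) (Q : Pol (n + 1)) {z₀ : ℂ} (hz₀ : R < ‖z₀‖) :
    DifferentiableAt ℂ (gQ P q T Q) z₀ := by
  set δ := (‖z₀‖ - R) / 2 with hδ
  have hδ0 : 0 < δ := by rw [hδ]; linarith
  have hlow : ∀ z ∈ Metric.ball z₀ δ, ∀ x : ℝ, |x| ≤ R → δ ≤ ‖(x : ℂ) - z‖ := by
    intro z hz x hx
    have h1 := norm_sub_ge hx z
    have h2 : ‖z₀‖ - δ ≤ ‖z‖ := by
      have := norm_sub_norm_le z₀ z
      rw [Metric.mem_ball, dist_eq_norm, norm_sub_rev] at hz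
      linarith
    rw [hδ] at h2 ⊢
    linarith
  have hne : ∀ z ∈ Metric.ball z₀ δ, ∀ x : ℝ, |x| ≤ R → (x : ℂ) - z ≠ 0 := fun z hz x hx h => by
    have := hlow z hz x hx
    rw [h, norm_zero] at this
    linarith
  have hclR := closure_abs_le hR
  have hcd : ∀ z ∈ Metric.ball z₀ δ, ∀ k : ℕ, ∀ x ∈ closure T, ContinuousAt
      (fun x : Fin (n + 1) → ℝ => eval (xC x) Q / ((x (Fin.last n) : ℂ) - z) ^ k) x := by
    intro z hz k x hx
    refine (continuous_eval_xC Q).continuousAt.div ?_ (pow_ne_zero _ (hne z hz _ (hclR x hx)))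
    exact (((Complex.continuous_ofReal.comp (continuous_apply _)).sub
      continuous_const).pow k).continuousAt
  have hm0 : z₀ ∈ Metric.ball z₀ δ := Metric.mem_ball_self hδ0
  have hint : ∀ z ∈ Metric.ball z₀ δ, ∀ k : ℕ, Integrable fun x =>
      ((S4.pw (fR P.en P.eta q) T P.a x : ℝ) : ℂ) * eval (xC x) Q /
        ((x (Fin.last n) : ℂ) - z) ^ k := by
    intro z hz k
    refine (integrable_mul hT hc (hcd z hz k)).congr (Eventually.of_forall fun x => ?_)
    simp only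
    ring
  have hint1 : ∀ z ∈ Metric.ball z₀ δ, Integrable fun x =>
      ((S4.pw (fR P.en P.eta q) T P.a x : ℝ) : ℂ) * eval (xC x) Q /
        ((x (Fin.last n) : ℂ) - z) := by
    intro z hz
    simpa using hint z hz 1
  have hmain := hasDerivAt_integral_of_dominated_loc_of_deriv_le (μ := volume) (𝕜 := ℂ)
    (F := fun z x => ((S4.pw (fR P.en P.eta q) T P.a x : ℝ) : ℂ) * eval (xC x) Q /
        ((x (Fin.last n) : ℂ) - z))
    (F' := fun z x => ((S4.pw (fR P.en P.eta q) T P.a x : ℝ) : ℂ) * eval (xC x) Q /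
        ((x (Fin.last n) : ℂ) - z) ^ 2)
    (bound := fun x => ‖((S4.pw (fR P.en P.eta q) T P.a x : ℝ) : ℂ) * eval (xC x) Q‖ *
        (δ ^ 2)⁻¹)
    (x₀ := z₀) (s := Metric.ball z₀ δ) (Metric.ball_mem_nhds z₀ hδ0)
    (by
      filter_upwards [Metric.ball_mem_nhds z₀ hδ0] with z hz
      exact (hint1 z hz).aestronglyMeasurable)
    (hint1 z₀ hm0) (hint z₀ hm0 2).aestronglyMeasurable
    (Eventually.of_forall fun x z hz => by
      by_cases hx : x ∈ T
      · rw [norm_div, norm_pow, div_eq_mul_inv]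
        refine mul_le_mul_of_nonneg_left ?_ (norm_nonneg _)
        refine inv_anti₀ (by positivity) ?_
        exact pow_le_pow_left₀ hδ0.le (hlow z hz _ (hR x hx)) 2
      · rw [S4.pw_of_notMem hx]
        simp)
    (((integrable_mul hT hc fun x _ =>
      (continuous_eval_xC Q).continuousAt).norm).mul_const _)
    (Eventually.of_forall fun x z hz => by
      by_cases hx : x ∈ T
      · have h1 := hne z hz _ (hR x hx)
        have h2 : HasDerivAt (fun z : ℂ => (x (Fin.last n) : ℂ) - z) (-1) z := by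
          simpa using (hasDerivAt_id z).const_sub (x (Fin.last n) : ℂ)
        have h3 := (hasDerivAt_const z (((S4.pw (fR P.en P.eta q) T P.a x : ℝ) : ℂ) *
          eval (xC x) Q)).fun_div h2 h1
        exact h3.congr_deriv (by ring)
      · simp only [S4.pw_of_notMem hx, Complex.ofReal_zero, zero_mul, zero_div]
        exact hasDerivAt_const z 0)
  exact hmain.2.differentiableAt

theorem norm_gQ_le (hT : S4.Piece (fR P.en P.eta q) T univ) (hc : IsCompact (closure T))
    {R : ℝ} (hR : ∀ x ∈ T, |x (Fin.last n)| ≤ R) (Q : Pol (n + 1)) {R₁ : ℝ} (h1 : R < R₁) :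
    ∃ C : ℝ, ∀ z, R₁ ≤ ‖z‖ → ‖z‖ * ‖gQ P q T Q z‖ ≤ C := by
  rcases T.eq_empty_or_nonempty with rfl | ⟨x₀, hx₀⟩
  · refine ⟨0, fun z _ => ?_⟩
    have : gQ P q ∅ Q z = 0 := by
      unfold gQ
      simp [S4.pw]
    rw [this]
    simp
  have hR0 : 0 ≤ R := (abs_nonneg _).trans (hR x₀ hx₀)
  set M := ∫ x, ‖((S4.pw (fR P.en P.eta q) T P.a x : ℝ) : ℂ) * eval (xC x) Q‖ with hM
  have hM0 : 0 ≤ M := integral_nonneg fun x => norm_nonneg _
  refine ⟨R₁ / (R₁ - R) * M, fun z hz => ?_⟩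
  have hz1 : 0 < ‖z‖ - R := by linarith
  have hi : Integrable fun x => ‖((S4.pw (fR P.en P.eta q) T P.a x : ℝ) : ℂ) * eval (xC x) Q‖ :=
    (integrable_mul hT hc fun x _ => (continuous_eval_xC Q).continuousAt).norm
  have h2 : ‖gQ P q T Q z‖ ≤ ∫ x, ‖((S4.pw (fR P.en P.eta q) T P.a x : ℝ) : ℂ) *
      eval (xC x) Q‖ * (‖z‖ - R)⁻¹ := by
    refine norm_integral_le_of_norm_le (hi.mul_const _) (Eventually.of_forall fun x => ?_)
    by_cases hx : x ∈ T
    · rw [norm_div, div_eq_mul_inv]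
      refine mul_le_mul_of_nonneg_left ?_ (norm_nonneg _)
      exact inv_anti₀ hz1 (norm_sub_ge (hR x hx) z)
    · rw [S4.pw_of_notMem hx]
      simp
  rw [integral_mul_const, ← hM] at h2
  have h3 : ‖z‖ * (‖z‖ - R)⁻¹ ≤ R₁ / (R₁ - R) := by
    rw [← div_eq_mul_inv, div_le_div_iff₀ hz1 (by linarith)]
    nlinarith
  calc ‖z‖ * ‖gQ P q T Q z‖ ≤ ‖z‖ * (M * (‖z‖ - R)⁻¹) :=
        mul_le_mul_of_nonneg_left h2 (norm_nonneg _)
    _ = (‖z‖ * (‖z‖ - R)⁻¹) * M := by ring
    _ ≤ R₁ / (R₁ - R) * M := mul_le_mul_of_nonneg_right h3 hM0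

/-- A piece gives a constant family. -/
theorem rfam_const (hT : S4.Piece (fR P.en P.eta q) T univ) (hc : IsCompact (closure T)) :
    RFam P univ (fun _ : ℝ => q) {p : ℝ × (Fin (n + 1) → ℝ) | p.2 ∈ T} where
  isOpen := isOpen_univ
  smooth := contDiffOn_const
  piece :=
    { isOpenD := isOpen_univ.prod isOpen_univ
      isOpen := hT.isOpen.preimage continuous_snd
      sub := fun p _ => ⟨mem_univ _, mem_univ _⟩
      pos := fun p hp => hT.pos p.2 hp
      zero := fun p _ hp hp' => by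
        refine hT.zero p.2 (mem_univ _) ?_ hp'
        have hcl : IsClosed (Prod.snd ⁻¹' closure T : Set (ℝ × (Fin (n + 1) → ℝ))) :=
          isClosed_closure.preimage continuous_snd
        have hsub : {p : ℝ × (Fin (n + 1) → ℝ) | p.2 ∈ T} ⊆ Prod.snd ⁻¹' closure T :=
          fun p hp => subset_closure hp
        exact closure_minimal hsub hcl hp }
  bdd := by
    intro s _
    obtain ⟨R, hR⟩ := hc.isBounded.exists_norm_le
    exact ⟨1, one_pos, R, fun p hp _ => hR _ (subset_closure hp)⟩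

theorem fib_const (s : ℝ) : fib {p : ℝ × (Fin (n + 1) → ℝ) | p.2 ∈ T} s = T := rfl

/-- `JU` is OUT if it is parallel on the annulus. -/
theorem JU_out_of_par (hT : S4.Piece (fR P.en P.eta q) T univ) (hc : IsCompact (closure T))
    {R R₀ R₁ : ℝ} (hR : ∀ x ∈ T, |x (Fin.last n)| ≤ R) (h0 : R < R₀) (h1 : R₀ < R₁)
    (hV : (VLS P n l).Par (fun z => (tC q, z)) (ann R₀ R₁) (JU P.a (fR P.en P.eta q) T)) :
    OutSec P R₀ R₁ (tC q) (JU P.a (fR P.en P.eta q) T) := by
  refine ⟨hV, fun Q => ⟨gQ P q T Q, fun z hz => ?_, fun z hz => ?_, ?_⟩⟩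
  · exact (hasDerivAt_gQ hT hc hR Q (h0.trans hz)).differentiableWithinAt
  · refine (JU_shift hT hc hR ?_ Q).symm
    by_cases him : z.im = 0
    · right
      have h2 : ‖z‖ = |z.re| := by
        have : z = (z.re : ℂ) := Complex.ext rfl (by simpa using him)
        rw [this, Complex.norm_real, Real.norm_eq_abs, Complex.ofReal_re]
      have h3 : R₀ < ‖z‖ := hz.1
      linarith
    · exact Or.inl him
  · exact norm_gQ_le hT hc hR Q (h0.trans h1)

end Single

end Pool.Agent.QC.Cyc
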