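import Pool.Agent.QC.Cyc.Iface
import Pool.Agent.QC.Cyc.Frame
import Pool.Agent.QC.Cyc.Single
import Pool.Agent.QC.LS.Lift

/-!
# MP_7c50a9_lc, section 6: real cycles are compatible with the transport in the frames
-/

namespace Pool.Agent.QC.Cyc

open MvPolynomial Filter Topology Set

variable {n l : ℕ} {P : Prm}

/-! ## Restriction of families -/

theorem piece_restrict {X : Type*} [NormedAddCommGroup X] [NormedSpace ℝ X] {f : X → ℝ}
    {T D D' : Set X} (h : S4.Piece f T D) (hD' : IsOpen D') (hsub : D' ⊆ D) :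
    S4.Piece f (T ∩ D') D' where
  isOpenD := hD'
  isOpen := h.isOpen.inter hD'
  sub := inter_subset_right
  pos := fun x hx => h.pos x hx.1
  zero := fun x hx hc hn => h.zero x (hsub hx) (closure_mono inter_subset_left hc)
    fun hT => hn ⟨hT, hx⟩

theorem rfam_restrict {I J : Set ℝ} {h : ℝ → RTup n l} {T : Set (ℝ × (Fin (n + 1) → ℝ))}
    (H : RFam P I h T) (hJ : IsOpen J) (hJI : J ⊆ I) : RFam P J h (T ∩ J ×ˢ univ) where
  isOpen := hJ
  smooth := H.smooth.mono hJI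
  piece := piece_restrict H.piece (hJ.prod isOpen_univ) (prod_mono hJI le_rfl)
  bdd := fun s hs => by
    obtain ⟨ε, hε, R, hR⟩ := H.bdd s (hJI hs)
    exact ⟨ε, hε, R, fun p hp hps => hR p hp.1 hps⟩

theorem fib_restrict {J : Set ℝ} {T : Set (ℝ × (Fin (n + 1) → ℝ))} {s : ℝ} (hs : s ∈ J) :
    fib (T ∩ J ×ˢ univ) s = fib T s := by
  ext x
  exact ⟨fun h => h.1, fun h => ⟨h, hs, mem_univ _⟩⟩

/-! ## Complex frames -/

theorem snocC (c : Fin n → ℝ) (i : Fin (n + 1)) :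
    (Fin.snoc (xC c) (0 : ℂ) : Fin (n + 1) → ℂ) i =
      (((Fin.snoc c (0 : ℝ) : Fin (n + 1) → ℝ) i : ℝ) : ℂ) := by
  refine Fin.lastCases ?_ (fun j => ?_) i
  · simp
  · simp [xC]

theorem shT_tC (c : Fin n → ℝ) (q : RTup n l) : shT (xC c) (tC q) = tC (shT c q) := by
  funext m
  refine Prod.ext ?_ (Prod.ext ?_ ?_)
  · funext i j
    simp only [shT, shQ, tC, snocC]
    push_cast
    rfl
  · funext i
    simp only [shT, shQ, tC, snocC]
    push_cast
    rfl
  · rfl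

theorem xC_smul (x : ℝ) (c : Fin n → ℝ) : (x : ℂ) • xC c = xC (x • c) := by
  funext i
  simp [xC]

theorem shT_zero {R : Type*} [CommRing R] (q : Fin (l + 1) → QP R (n + 1)) :
    shT (0 : Fin n → R) q = q := by
  have hd : ∀ i : Fin (n + 1), (Fin.snoc (0 : Fin n → R) (0 : R) : Fin (n + 1) → R) i = 0 := by
    intro i
    refine Fin.lastCases ?_ (fun j => ?_) i
    · simp
    · simp
  funext m
  refine Prod.ext ?_ (Prod.ext ?_ ?_)
  · funext i j
    simp only [shT, shQ, hd]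
    ring
  · funext i
    simp only [shT, shQ, hd]
    ring
  · rfl

/-- the complex frame family -/
noncomputable def HF (q : RTup n l) (c : Fin n → ℝ) (ζ : ℂ) : Tup n l := shT (ζ • xC c) (tC q)

theorem continuous_shT {R : Type*} [CommRing R] [TopologicalSpace R] [IsTopologicalRing R]
    {X : Type*} [TopologicalSpace X] {c : X → Fin n → R} {q : X → Fin (l + 1) → QP R (n + 1)}
    (hc : Continuous c) (hq : Continuous q) : Continuous fun s => shT (c s) (q s) := by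
  have hd : ∀ i : Fin (n + 1), Continuous fun s => (Fin.snoc (c s) 0 : Fin (n + 1) → R) i := by
    intro i
    refine Fin.lastCases ?_ (fun j => ?_) i
    · simpa using continuous_const
    · simpa [Function.comp_def] using (continuous_apply j).comp hc
  refine continuous_pi fun m => ?_
  have hm : Continuous fun s => q s m := (continuous_apply m).comp hq
  have h1 : ∀ i j, Continuous fun s => (q s m).1 i j := fun i j =>
    (continuous_apply j).comp ((continuous_apply i).comp (continuous_fst.comp hm))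
  have h2 : ∀ i, Continuous fun s => (q s m).2.1 i := fun i =>
    (continuous_apply i).comp (continuous_fst.comp (continuous_snd.comp hm))
  have h3 : Continuous fun s => (q s m).2.2 := continuous_snd.comp (continuous_snd.comp hm)
  unfold shT shQ
  refine Continuous.prodMk ?_ (Continuous.prodMk ?_ h3)
  · refine continuous_pi fun i => continuous_pi fun j => ?_
    exact (((h1 i j).sub ((hd i).mul (h1 _ j))).sub ((h1 i _).mul (hd j))).add
      (((hd i).mul (hd j)).mul (h1 _ _))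
  · refine continuous_pi fun i => ?_
    exact (h2 i).sub ((hd i).mul (h2 _))

theorem continuous_HF (q : RTup n l) (c : Fin n → ℝ) : Continuous (HF q c) :=
  continuous_shT (continuous_id.smul continuous_const) continuous_const

theorem HF_real (q : RTup n l) (c : Fin n → ℝ) (s : ℝ) : HF q c s = tC (shT (s • c) q) := by
  rw [HF, xC_smul, shT_tC]

theorem pathC_eq (q : RTup n l) (c : Fin n → ℝ) (ω s : ℝ) :
    pathC (tC q) (xC c) ω s = HF q c (arc ω 1 s) := rfl

/-- the region under the arc -/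
def Dω (ω : ℝ) : Set ℂ :=
  {ζ | 0 ≤ ζ.re ∧ ζ.re ≤ 1 ∧ 0 ≤ ζ.im ∧ ζ.im ≤ ω * ζ.re * (1 - ζ.re)}

theorem star_Dω {ω : ℝ} (hω : 0 < ω) : StarConvex ℝ (0 : ℂ) (Dω ω) := by
  rintro ζ ⟨h1, h2, h3, h4⟩ a t ha ht hat
  have ht1 : t ≤ 1 := by linarith
  have e1 : (a • (0 : ℂ) + t • ζ).re = t * ζ.re := by simp
  have e2 : (a • (0 : ℂ) + t • ζ).im = t * ζ.im := by simp
  refine ⟨?_, ?_, ?_, ?_⟩
  · rw [e1]; positivity
  · rw [e1]; nlinarith
  · rw [e2]; positivity
  · rw [e1, e2]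
    have h5 : t * ζ.im ≤ t * (ω * ζ.re * (1 - ζ.re)) := mul_le_mul_of_nonneg_left h4 ht
    have h6 : t * (ω * ζ.re * (1 - ζ.re)) ≤ ω * (t * ζ.re) * (1 - t * ζ.re) := by
      have h7 : 0 ≤ ω * (t * ζ.re) := by positivity
      have h8 : 1 - ζ.re ≤ 1 - t * ζ.re := by nlinarith
      calc t * (ω * ζ.re * (1 - ζ.re)) = ω * (t * ζ.re) * (1 - ζ.re) := by ring
        _ ≤ _ := mul_le_mul_of_nonneg_left h8 h7
    exact h5.trans h6

theorem arc_one (ω s : ℝ) : (arc ω 1 s).re = s ∧ (arc ω 1 s).im = ω * s * (1 - s) := by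
  simp [arc]

theorem arc_mem {ω : ℝ} (hω : 0 < ω) {s : ℝ} (hs : s ∈ Icc (0 : ℝ) 1) : arc ω 1 s ∈ Dω ω := by
  obtain ⟨h1, h2⟩ := arc_one ω s
  have h3 : 0 ≤ 1 - s := by linarith [hs.2]
  have h4 : 0 ≤ s := hs.1
  refine ⟨?_, ?_, ?_, ?_⟩
  · rw [h1]; exact hs.1
  · rw [h1]; exact hs.2
  · rw [h2]; positivity
  · rw [h1, h2]

theorem arc_zero_eq (ω : ℝ) : arc ω 1 0 = 0 := by simp [arc]

theorem arc_one_eq (ω : ℝ) : arc ω 1 1 = 1 := by simp [arc]

theorem continuous_arc (ω : ℝ) (z : ℂ) : Continuous (arc ω z) := by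
  unfold arc
  fun_prop

theorem real_mem {ω : ℝ} (hω : 0 < ω) {s : ℝ} (hs : s ∈ Icc (0 : ℝ) 1) : (s : ℂ) ∈ Dω ω := by
  have h3 : 0 ≤ 1 - s := by linarith [hs.2]
  have h4 : 0 ≤ s := hs.1
  refine ⟨?_, ?_, ?_, ?_⟩
  · simpa using hs.1
  · simpa using hs.2
  · simp
  · simp only [Complex.ofReal_im, Complex.ofReal_re]
    positivity

theorem ymap_sub (z : ℂ) (J J' : Fnl (n + 1)) : ymap z (J - J') = ymap z J - ymap z J' := by
  refine LinearMap.ext fun Q => ?_
  simp [ymap]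

theorem cyc_bound {q : RTup n l} {O : Set (Fin (n + 1) → ℝ)} {R : ℝ}
    (hR : ∀ x ∈ O, 0 ≤ fR 0 0 q x → |x (Fin.last n)| ≤ R) :
    ∀ x ∈ cyc P q O, |x (Fin.last n)| ≤ R := fun x hx =>
  hR x hx.1 (hx.2.le.trans (fR_le P q x))

/-- Real cycles are compatible with the transport in the frames along the arc. -/
theorem frame_cycle {q : RTup n l} {O : Set (Fin (n + 1) → ℝ)} (h : Pr q O) {c : Fin n → ℝ}
    {ω : ℝ} (hω : 0 < ω) {R R₀ R₁ : ℝ} (h0 : 0 < R) (h1 : R < R₀) (h2 : R₀ < R₁)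
    (hR : ∀ x ∈ O, 0 ≤ fR 0 0 q x → |x (Fin.last n)| ≤ R ∧ |shX c x (Fin.last n)| ≤ R)
    (hs : ∀ x y : ℝ, 0 ≤ x → x ≤ 1 → 0 ≤ y → y ≤ ω * x * (1 - x) →
      SingF (P.f (shT (((x : ℂ) + Complex.I * y) • xC c) (tC q))) = ∅)
    (hf : ∀ s ∈ Icc (0 : ℝ) 1, ∀ z, R₀ ≤ ‖z‖ → ‖z‖ ≤ R₁ →
      z ∉ SigF (P.f (pathC (tC q) (xC c) ω s))) {z : ℂ} (hz : z ∈ ann R₀ R₁)
    {u : ℝ → Fnl (n + 1)}
    (hu : (VLS P n l).Par (fun s : ℝ => (pathC (tC q) (xC c) ω s, z)) (Icc 0 1) u)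
    (hu0 : u 0 = JC P q O z) : u 1 = JC P (shT c q) (shX c '' O) z := by
  have hR₀ : 0 < R₀ := h0.trans h1
  -- no singular points under the arc
  have hsD : ∀ ζ ∈ Dω ω, SingF (P.f (HF q c ζ)) = ∅ := by
    rintro ζ ⟨g1, g2, g3, g4⟩
    have := hs ζ.re ζ.im g1 g2 g3 g4
    have e : (ζ.re : ℂ) + Complex.I * ζ.im = ζ := by
      rw [mul_comm]
      exact Complex.re_add_im ζ
    rw [e] at this
    exact this
  have hXD : MapsTo (HF q c) (Dω ω) (ZLS P n l).X := fun ζ hζ => (mem_ZLS_X P).2 (hsD ζ hζ)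
  -- the y-part along the arc
  have hmV : MapsTo (fun s : ℝ => (pathC (tC q) (xC c) ω s, z)) (Icc 0 1) (VLS P n l).X :=
    fun s hs' => (mem_VLS_X P).2 ⟨hsD _ (arc_mem hω hs'), hf s hs' z hz.1.le hz.2.le⟩
  have hcA : Continuous fun s : ℝ => pathC (tC q) (xC c) ω s :=
    (continuous_HF q c).comp (continuous_arc ω 1)
  have hyA : (ZLS P n l).Par (fun s : ℝ => pathC (tC q) (xC c) ω s) (Icc 0 1)
      (fun s => ymap z (u s)) :=
    Par.ymap P hmV (hcA.prodMk continuous_const).continuousOn hu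
  have e0 : HF q c 0 = tC q := by
    rw [HF, zero_smul, shT_zero]
  have hp0 : pathC (tC q) (xC c) ω 0 = tC q := by
    rw [pathC_eq, arc_zero_eq, e0]
  have e1 : HF q c 1 = tC (shT c q) := by
    have := HF_real q c 1
    rwa [Complex.ofReal_one, one_smul] at this
  have hp1 : pathC (tC q) (xC c) ω 1 = tC (shT c q) := by
    rw [pathC_eq, arc_one_eq, e1]
  have h0I : (0 : ℝ) ∈ Icc (0 : ℝ) 1 := ⟨le_rfl, zero_le_one⟩
  have h1I : (1 : ℝ) ∈ Icc (0 : ℝ) 1 := ⟨zero_le_one, le_rfl⟩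
  have h0D : (0 : ℂ) ∈ Dω ω := by
    have := real_mem hω h0I
    rwa [Complex.ofReal_zero] at this
  have hmem : ymap z (u 0) ∈ (ZLS P n l).V (HF q c 0) := by
    have := hyA.mem h0I
    rwa [hp0, ← e0] at this
  obtain ⟨U, hU, hU0⟩ := LS.Par.exists_star (A := ZLS P n l) (star_Dω hω) h0D
    (continuous_HF q c).continuousOn hXD hmem
  -- comparison along the arc
  have hUA : (ZLS P n l).Par (fun s : ℝ => pathC (tC q) (xC c) ω s) (Icc 0 1)
      (fun s => U (arc ω 1 s)) :=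
    hU.comp (g := fun s : ℝ => arc ω 1 s) (continuous_arc ω 1).continuousOn
      fun s hs' => arc_mem hω hs'
  have hmA : MapsTo (fun s : ℝ => pathC (tC q) (xC c) ω s) (Icc 0 1) (ZLS P n l).X :=
    fun s hs' => hXD (arc_mem hω hs')
  have hA1 : ymap z (u 1) = U (arc ω 1 1) :=
    LS.Par.unique isPreconnected_Icc hcA.continuousOn hmA hyA hUA h0I
      (by simp only [arc_zero_eq]; exact hU0.symm) h1I
  rw [arc_one_eq] at hA1
  -- the real family
  set J : Set ℝ := {s | SingF (P.f (tC (shT (s • c) q))) = ∅} with hJ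
  have hcR : Continuous fun s : ℝ => tC (shT (s • c) q) := by
    have h3 : (fun s : ℝ => tC (shT (s • c) q)) = fun s : ℝ => HF q c (s : ℂ) := by
      funext s
      rw [HF_real]
    rw [h3]
    exact (continuous_HF q c).comp Complex.continuous_ofReal
  have hJo : IsOpen J := by
    have h3 : J = (fun s : ℝ => tC (shT (s • c) q)) ⁻¹' (ZLS P n l).X := by
      ext s
      exact (mem_ZLS_X P).symm
    rw [h3]
    exact (ZLS P n l).isOpen_X.preimage hcR
  have hIJ : Icc (0 : ℝ) 1 ⊆ J := fun s hs' => by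
    have := hsD _ (real_mem hω hs')
    rwa [HF_real] at this
  have hfam := rfam_restrict (Pr_frame (P := P) h c) hJo (subset_univ J)
  have hZ := cyc_Z hfam (fun s hs' => hs')
  have hZ1 : (ZLS P n l).Par (fun s : ℝ => tC (shT (s • c) q)) (Icc 0 1)
      (fun s => yU P.a (fR P.en P.eta (shT (s • c) q))
        (cyc P (shT (s • c) q) (shX (s • c) '' O))) := by
    refine (hZ.mono hIJ).congr fun s hs' => ?_
    have h3 := fib_restrict (T := {p : ℝ × (Fin (n + 1) → ℝ) |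
      p.2 ∈ cyc P (shT (p.1 • c) q) (shX (p.1 • c) '' O)}) (hIJ hs')
    exact congrArg (yU P.a (fR P.en P.eta (shT (s • c) q))) h3
  have hUR : (ZLS P n l).Par (fun s : ℝ => tC (shT (s • c) q)) (Icc 0 1)
      (fun s => U (s : ℂ)) := by
    refine (hU.comp (g := fun s : ℝ => (s : ℂ)) (R := Icc (0 : ℝ) 1)
      Complex.continuous_ofReal.continuousOn
      fun s hs' => real_mem hω hs').congr_map fun s _ => ?_
    exact HF_real q c s
  -- bounds
  have hb0 : ∀ x ∈ cyc P q O, |x (Fin.last n)| ≤ R := cyc_bound fun x hx hx' => (hR x hx hx').1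
  have hb1 : ∀ x ∈ cyc P (shT c q) (shX c '' O), |x (Fin.last n)| ≤ R := cyc_bound (by
    rintro _ ⟨x, hx, rfl⟩ hx'
    rw [fR0_shT] at hx'
    exact (hR x hx hx').2)
  have hPr1 : Pr (shT c q) (shX c '' O) := Pr_shX h c
  have hzR : z.im ≠ 0 ∨ R < |z.re| := by
    by_cases him : z.im = 0
    · right
      have h3 : ‖z‖ = |z.re| := by
        have : z = (z.re : ℂ) := Complex.ext rfl (by simpa using him)
        rw [this, Complex.norm_real, Real.norm_eq_abs, Complex.ofReal_re]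
      have h4 : R₀ < ‖z‖ := hz.1
      linarith
    · exact Or.inl him
  have hy0 : ymap z (u 0) = yU P.a (fR P.en P.eta q) (cyc P q O) := by
    rw [hu0]
    exact ymap_JU (Pr_piece h) (Pr_closure h).1 hb0 hzR
  have hR1 : yU P.a (fR P.en P.eta (shT ((1 : ℝ) • c) q))
      (cyc P (shT ((1 : ℝ) • c) q) (shX ((1 : ℝ) • c) '' O)) = U ((1 : ℝ) : ℂ) :=
    LS.Par.unique isPreconnected_Icc hcR.continuousOn
      (fun s hs' => (mem_ZLS_X P).2 (hIJ hs')) hZ1 hUR h0I
      (by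
        simp only [Complex.ofReal_zero, zero_smul]
        rw [hU0, hy0, shT_zero]
        have : shX (0 : Fin n → ℝ) '' O = O := by
          ext x
          constructor
          · rintro ⟨y, hy, rfl⟩
            rwa [shX_zero]
          · intro hx
            exact ⟨x, hx, shX_zero x⟩
        rw [this]) h1I
  rw [one_smul, Complex.ofReal_one] at hR1
  -- OUT
  have hsq : SingF (P.f (tC q)) = ∅ := by
    have := hsD 0 h0D
    rwa [e0] at this
  have hs1 : SingF (P.f (tC (shT c q))) = ∅ := by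
    have := hIJ h1I
    rw [hJ] at this
    have h3 : SingF (P.f (tC (shT ((1 : ℝ) • c) q))) = ∅ := this
    rwa [one_smul] at h3
  have hf0 : ∀ z ∈ ann R₀ R₁, z ∉ SigF (P.f (tC q)) := fun z hz => by
    have := hf 0 h0I z hz.1.le hz.2.le
    rwa [hp0] at this
  have hf1 : ∀ z, R₀ ≤ ‖z‖ → ‖z‖ ≤ R₁ → z ∉ SigF (P.f (tC (shT c q))) := fun z g1 g2 => by
    have := hf 1 h1I z g1 g2
    rwa [hp1] at this
  have hO0 : Out P R₀ R₁ (pathC (tC q) (xC c) ω 0) z (u 0) := by
    rw [hp0, hu0]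
    exact ⟨_, Pool.Agent.QC.JU_out (Pr_piece h) (Pr_closure h).1 hb0 h1 h2 hsq hf0, rfl⟩
  have hO1 : Out P R₀ R₁ (pathC (tC q) (xC c) ω 1) z (u 1) :=
    Out.transport P hR₀ h2 isPreconnected_Icc hcA.continuousOn
      (fun s hs' => hsD _ (arc_mem hω hs')) hf hz hu h0I h1I hO0
  rw [hp1] at hO1
  have hO2 : Out P R₀ R₁ (tC (shT c q)) z (JC P (shT c q) (shX c '' O) z) :=
    ⟨_, Pool.Agent.QC.JU_out (Pr_piece hPr1) (Pr_closure hPr1).1 hb1 h1 h2 hs1
      (fun z hz => hf1 z hz.1.le hz.2.le), rfl⟩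
  have hO3 := Out.add P hO1 (Out.smul P (-1) hO2)
  have hO4 : u 1 + (-1 : ℂ) • JC P (shT c q) (shX c '' O) z =
      u 1 - JC P (shT c q) (shX c '' O) z := by
    rw [neg_one_smul, sub_eq_add_neg]
  rw [hO4] at hO3
  have hy1 : ymap z (JC P (shT c q) (shX c '' O) z) =
      yU P.a (fR P.en P.eta (shT c q)) (cyc P (shT c q) (shX c '' O)) :=
    ymap_JU (Pr_piece hPr1) (Pr_closure hPr1).1 hb1 hzR
  have hfin := Out.eq_zero P hR₀ h2 hs1 hf1 hz hO3 (by
    rw [ymap_sub, hA1, hy1, hR1, sub_self])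
  exact sub_eq_zero.mp hfin

end Pool.Agent.QC.Cyc

namespace Pool.Agent.QC

alias frame_cycle := Cyc.frame_cycle

end Pool.Agent.QC
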