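import Pool.Agent.QC.Cyc.FrameCycle

/-!
# MP_7c50a9_lc, section 5.2: the jump lemma for real cycles
-/

namespace Pool.Agent.QC.Cyc

open MvPolynomial Filter Topology Set

/-! ## Extension of sections to the closed half plane -/

section Ext

variable {Q : Type*} [TopologicalSpace Q] {F : Type*} {A : LS (Q × ℂ) F} {q : Q}

theorem cont_pair (q : Q) (S : Set ℂ) : ContinuousOn (fun z : ℂ => (q, z)) S :=
  (Continuous.prodMk_right q).continuousOn

/-- the half balls -/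
def hB (τ : ℂ) (r σ : ℝ) : Set ℂ := Metric.ball τ r ∩ {z | 0 < σ * z.im}

theorem convex_hB (τ : ℂ) (r σ : ℝ) : Convex ℝ (hB τ r σ) := by
  refine (convex_ball τ r).inter ?_
  have h : Convex ℝ {z : ℂ | 0 < (σ • Complex.imLm) z} :=
    convex_halfSpace_gt (LinearMap.isLinear _) 0
  simpa [smul_eq_mul] using h

theorem hB_nonempty {τ : ℂ} (hτ : τ.im = 0) {r σ : ℝ} (hr : 0 < r) (hσ : σ = 1 ∨ σ = -1) :
    (hB τ r σ).Nonempty := by
  refine ⟨τ + (σ * (r / 2) : ℝ) * Complex.I, ?_, ?_⟩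
  · rw [Metric.mem_ball, Complex.dist_eq, add_sub_cancel_left, norm_mul, Complex.norm_real,
      Complex.norm_I, mul_one, Real.norm_eq_abs, abs_mul, abs_of_pos (by linarith : 0 < r / 2)]
    rcases hσ with rfl | rfl <;> norm_num <;> linarith
  · simp only [mem_ofPred_eq, Complex.add_im, Complex.mul_im, Complex.ofReal_re, Complex.I_im,
      Complex.ofReal_im, Complex.I_re, hτ]
    rcases hσ with rfl | rfl <;> norm_num <;> linarith

/-- Sections on the half ball extend to the ball. -/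
theorem ball_ext {τ : ℂ} (hτ : τ.im = 0) {r σ : ℝ} (hr : 0 < r) (hσ : σ = 1 ∨ σ = -1)
    (hX : ∀ z ∈ Metric.ball τ r, (q, z) ∈ A.X) {u : ℂ → F}
    (hu : A.Par (fun z => (q, z)) (hB τ r σ) u) :
    ∃ y, A.Par (fun z => (q, z)) (Metric.ball τ r) y ∧ EqOn y u (hB τ r σ) := by
  obtain ⟨z₀, hz₀⟩ := hB_nonempty hτ hr hσ
  obtain ⟨y, h1, h2⟩ := LS.Par.exists_star (A := A) (h := fun z => (q, z))
    ((convex_ball τ r).starConvex hz₀.1) hz₀.1 (cont_pair q _) hX (hu.mem hz₀)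
  exact ⟨y, h1, LS.Par.unique (convex_hB τ r σ).isPreconnected (cont_pair q _)
    (fun z hz => hX z hz.1) (h1.mono inter_subset_left) hu hz₀ h2⟩

/-- the open half of the regular set -/
def XO (A : LS (Q × ℂ) F) (q : Q) (σ : ℝ) : Set ℂ := {z | (q, z) ∈ A.X ∧ 0 < σ * z.im}

/-- the closed half of the regular set -/
def XCl (A : LS (Q × ℂ) F) (q : Q) (σ : ℝ) : Set ℂ := {z | (q, z) ∈ A.X ∧ 0 ≤ σ * z.im}

theorem exists_closed_ext {σ : ℝ} (hσ : σ = 1 ∨ σ = -1) {u : ℂ → F}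
    (hu : A.Par (fun z => (q, z)) (XO A q σ) u) :
    ∃ u', A.Par (fun z => (q, z)) (XCl A q σ) u' ∧ EqOn u' u (XO A q σ) := by
  classical
  have hreg : IsOpen {z : ℂ | (q, z) ∈ A.X} := A.isOpen_X.preimage (Continuous.prodMk_right q)
  -- radii
  have hr : ∀ z : ℂ, ∃ r > 0, (q, z) ∈ A.X → Metric.ball z r ⊆ {z | (q, z) ∈ A.X} := by
    intro z
    by_cases hz : (q, z) ∈ A.X
    · obtain ⟨r, hr, h⟩ := Metric.isOpen_iff.mp hreg z hz
      exact ⟨r, hr, fun _ => h⟩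
    · exact ⟨1, one_pos, fun h => absurd h hz⟩
  choose r hr0 hrX using hr
  have hy : ∀ z : ℂ, ∃ y : ℂ → F, (q, z) ∈ A.X → z.im = 0 →
      A.Par (fun z => (q, z)) (Metric.ball z (r z)) y ∧ EqOn y u (hB z (r z) σ) := by
    intro z
    by_cases hz : (q, z) ∈ A.X ∧ z.im = 0
    · obtain ⟨y, h1, h2⟩ := ball_ext (q := q) (A := A) hz.2 (hr0 z) hσ (hrX z hz.1)
        (hu.mono fun x hx => ⟨hrX z hz.1 hx.1, hx.2⟩)
      exact ⟨y, fun _ _ => ⟨h1, h2⟩⟩
    · exact ⟨u, fun h1 h2 => absurd ⟨h1, h2⟩ hz⟩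
  choose y hy using hy
  have hne0 : ∀ z : ℂ, 0 < σ * z.im → z.im ≠ 0 := fun z hz h => by
    rw [h, mul_zero] at hz
    exact lt_irrefl _ hz
  refine ⟨fun z => if z.im = 0 then y z z else u z, ?_, ?_⟩
  · rintro z ⟨hzX, hz0⟩
    rcases hz0.eq_or_lt with h0 | h0
    · -- real point
      have hzi : z.im = 0 := by
        rcases hσ with rfl | rfl
        · linarith
        · linarith
      obtain ⟨hyp, hye⟩ := hy z hzX hzi
      obtain ⟨N, w, hN, hw, hev⟩ := hyp z (Metric.mem_ball_self (hr0 z))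
      refine ⟨N, w, hN, hw, ?_⟩
      have hball : Metric.ball z (r z) ∈ 𝓝 z := Metric.ball_mem_nhds z (hr0 z)
      have hev' : ∀ᶠ x in 𝓝 z, y z x = w (q, x) := by
        rwa [Metric.isOpen_ball.nhdsWithin_eq (Metric.mem_ball_self (hr0 z))] at hev
      have hmem : ∀ᶠ x in 𝓝[XCl A q σ] z, x ∈ XCl A q σ := self_mem_nhdsWithin
      filter_upwards [nhdsWithin_le_nhds hev', nhdsWithin_le_nhds hball, hmem] with x h1 h2 h3
      by_cases hx : x.im = 0
      · simp only [hx, if_true]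
        rw [← h1]
        obtain ⟨hxp, hxe⟩ := hy x h3.1 hx
        -- the sections `y x` and `y z` agree on the intersection of the balls
        have hconv : Convex ℝ (Metric.ball x (r x) ∩ Metric.ball z (r z)) :=
          (convex_ball _ _).inter (convex_ball _ _)
        obtain ⟨ρ, hρ, hρs⟩ := Metric.isOpen_iff.mp
          (Metric.isOpen_ball.inter Metric.isOpen_ball :
            IsOpen (Metric.ball x (r x) ∩ Metric.ball z (r z))) x
          ⟨Metric.mem_ball_self (hr0 x), h2⟩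
        obtain ⟨p, hp⟩ := hB_nonempty hx hρ hσ
        have hp2 := hρs hp.1
        exact LS.Par.unique hconv.isPreconnected (cont_pair q _)
          (fun a ha => hrX x h3.1 ha.1) (hxp.mono inter_subset_left)
          (hyp.mono inter_subset_right) hp2
          (by rw [hxe ⟨hp2.1, hp.2⟩, hye ⟨hp2.2, hp.2⟩])
          ⟨Metric.mem_ball_self (hr0 x), h2⟩
      · simp only [hx, if_false]
        rw [← h1]
        have hx0 : 0 < σ * x.im := by
          refine lt_of_le_of_ne h3.2 (Ne.symm (mul_ne_zero ?_ hx))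
          rcases hσ with rfl | rfl <;> norm_num
        exact (hye ⟨h2, hx0⟩).symm
    · -- point off the real axis
      obtain ⟨N, w, hN, hw, hev⟩ := hu z ⟨hzX, h0⟩
      refine ⟨N, w, hN, hw, ?_⟩
      have hO : IsOpen {x : ℂ | 0 < σ * x.im} :=
        isOpen_lt continuous_const (continuous_const.mul Complex.continuous_im)
      have h1 : {x : ℂ | 0 < σ * x.im} ∈ 𝓝 z := hO.mem_nhds h0
      have h2 : 𝓝[XCl A q σ] z ≤ 𝓝[XO A q σ] z := by
        rw [nhdsWithin_le_iff]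
        filter_upwards [self_mem_nhdsWithin, nhdsWithin_le_nhds h1] with x h3 h4
        exact ⟨h3.1, h4⟩
      filter_upwards [h2 hev, nhdsWithin_le_nhds h1] with x h3 h4
      rw [if_neg (hne0 x h4)]
      exact h3
  · intro z hz
    simp only
    rw [if_neg (hne0 z hz.2)]

end Ext

/-! ## The level family -/

section Level

variable {n l : ℕ} {P : Prm} {q : RTup n l} {O : Set (Fin (n + 1) → ℝ)}

theorem tC_addT (q : RTup n l) (t : ℝ) : tC (addT q t) = addT (tC q) (t : ℂ) := by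
  funext m
  by_cases h : m = 0
  · subst h
    simp [tC, addT]
  · simp [tC, addT, h]

theorem continuous_addTC (q : Tup n l) : Continuous fun t : ℂ => addT q t := by
  refine continuous_pi fun m => ?_
  unfold addT
  split_ifs
  · exact continuous_const.prodMk (continuous_const.prodMk (continuous_const.add continuous_id))
  · exact continuous_const

/-- the closed upper half disc -/
def hD (tv κ : ℝ) : Set ℂ := {t | ‖t - tv‖ ≤ κ ∧ 0 ≤ t.im}

/-- the upper half circle -/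
def hC (tv κ : ℝ) : Set ℂ := {t | ‖t - tv‖ = κ ∧ 0 ≤ t.im}

theorem hC_sub_hD (tv κ : ℝ) : hC tv κ ⊆ hD tv κ := fun _ ht => ⟨ht.1.le, ht.2⟩

theorem convex_hD (tv κ : ℝ) : Convex ℝ (hD tv κ) := by
  have h1 : Convex ℝ {t : ℂ | ‖t - tv‖ ≤ κ} := by
    have := convex_closedBall (tv : ℂ) κ
    simpa [Metric.closedBall, Complex.dist_eq] using this
  have h2 : Convex ℝ {t : ℂ | 0 ≤ t.im} :=
    convex_halfSpace_ge (LinearMap.isLinear Complex.imLm) 0
  exact h1.inter h2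

theorem real_mem_hD {tv κ t : ℝ} (ht : t ∈ Icc (tv - κ) (tv + κ)) : (t : ℂ) ∈ hD tv κ := by
  refine ⟨?_, by simp⟩
  rw [← Complex.ofReal_sub, Complex.norm_real, Real.norm_eq_abs, abs_le]
  exact ⟨by linarith [ht.1], by linarith [ht.2]⟩

theorem left_mem_hC {tv κ : ℝ} (hκ : 0 < κ) : ((tv - κ : ℝ) : ℂ) ∈ hC tv κ := by
  refine ⟨?_, by simp⟩
  rw [← Complex.ofReal_sub, Complex.norm_real, Real.norm_eq_abs, abs_eq hκ.le]
  right
  ring

theorem right_mem_hC {tv κ : ℝ} (hκ : 0 < κ) : ((tv + κ : ℝ) : ℂ) ∈ hC tv κ := by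
  refine ⟨?_, by simp⟩
  rw [← Complex.ofReal_sub, Complex.norm_real, Real.norm_eq_abs, abs_eq hκ.le]
  left
  ring

/-- parametrisation of the half circle from `tv - κ` to `tv + κ` -/
noncomputable def hγ (tv κ : ℝ) (s : ℝ) : ℂ :=
  tv + κ * Complex.exp ((Real.pi * (1 - s) : ℝ) * Complex.I)

theorem continuous_hγ (tv κ : ℝ) : Continuous (hγ tv κ) := by
  unfold hγ
  fun_prop

theorem hγ_zero (tv κ : ℝ) : hγ tv κ 0 = ((tv - κ : ℝ) : ℂ) := by
  unfold hγ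
  simp [Complex.exp_pi_mul_I, sub_eq_add_neg]

theorem hγ_one (tv κ : ℝ) : hγ tv κ 1 = ((tv + κ : ℝ) : ℂ) := by
  unfold hγ
  simp

theorem hγ_mem {tv κ : ℝ} (hκ : 0 < κ) {s : ℝ} (hs : s ∈ Icc (0 : ℝ) 1) :
    hγ tv κ s ∈ hC tv κ := by
  refine ⟨?_, ?_⟩
  · unfold hγ
    rw [add_sub_cancel_left, norm_mul, Complex.norm_exp_ofReal_mul_I, mul_one, Complex.norm_real,
      Real.norm_of_nonneg hκ.le]
  · unfold hγ
    rw [Complex.add_im, Complex.ofReal_im, zero_add, Complex.im_ofReal_mul,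
      Complex.exp_ofReal_mul_I_im]
    exact mul_nonneg hκ.le (Real.sin_nonneg_of_nonneg_of_le_pi
      (mul_nonneg Real.pi_pos.le (by linarith [hs.2]))
      (by nlinarith [Real.pi_pos, hs.1]))

variable {t₁ tv κ : ℝ}

theorem sing_real (hs : ∀ t : ℂ, ‖t - tv‖ = κ → 0 ≤ t.im → SingF (P.f (addT (tC q) t)) = ∅)
    {t : ℝ} (ht : (t : ℂ) ∈ hC tv κ) : SingF (P.f (tC (addT q t))) = ∅ := by
  rw [tC_addT]
  exact hs t ht.1 ht.2

/-- The slice functionals of the real cycle are transported above the event. -/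
theorem slice_transport (hO : IsOpen O) (hsub : ∀ x ∈ O, inOm q x) (hκ : 0 < κ)
    (ht : tv + κ < t₁) (h : ∀ t < t₁, IsCompact {x ∈ O | 0 ≤ fR 0 0 (addT q t) x}) {τ : ℝ}
    (hX : ∀ t : ℂ, ‖t - tv‖ ≤ κ → 0 ≤ t.im → (τ : ℂ) ∉ SigF (P.f (addT (tC q) t)))
    (hs : ∀ t : ℂ, ‖t - tv‖ = κ → 0 ≤ t.im → SingF (P.f (addT (tC q) t)) = ∅) :
    ∃ u : ℂ → Fnl (n + 1),
      (VLS P n l).Par (fun t : ℂ => (addT (tC q) t, (τ : ℂ))) (hC tv κ) u ∧
      u ((tv - κ : ℝ) : ℂ) =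
        sl (aU P.a (fR P.en P.eta (addT q (tv - κ))) (cyc P (addT q (tv - κ)) O) τ) ∧
      u ((tv + κ : ℝ) : ℂ) =
        sl (aU P.a (fR P.en P.eta (addT q (tv + κ))) (cyc P (addT q (tv + κ)) O) τ) := by
  -- real slice section
  set a : ℝ → Fnl n := fun t =>
    aU P.a (fR P.en P.eta (addT q t)) (cyc P (addT q t) O) τ with ha
  have hfam := Pr_level (P := P) hO hsub h
  have hS := cyc_S hfam
  have hRm : ∀ t ∈ Icc (tv - κ) (tv + κ), (τ : ℂ) ∉ SigF (P.f (tC (addT q t))) := fun t ht' => by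
    rw [tC_addT]
    exact hX t (real_mem_hD ht').1 (real_mem_hD ht').2
  have hSR : (SLS P n l).Par (fun t : ℝ => (tC (addT q t), (τ : ℂ))) (Icc (tv - κ) (tv + κ)) a := by
    have h1 := hS.comp (g := fun t : ℝ => (t, τ)) (R := Icc (tv - κ) (tv + κ))
      (Continuous.prodMk_left τ).continuousOn
      (fun t ht' => ⟨lt_of_le_of_lt ht'.2 ht, hRm t ht'⟩)
    refine h1.congr fun t ht' => ?_
    have h2 : fib {p : ℝ × (Fin (n + 1) → ℝ) | p.2 ∈ cyc P (addT q p.1) O ∧ p.1 < t₁} t =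
        cyc P (addT q t) O := by
      ext x
      exact ⟨fun hx => hx.1, fun hx => ⟨hx, lt_of_le_of_lt ht'.2 ht⟩⟩
    exact congrArg (fun T => aU P.a (fR P.en P.eta (addT q t)) T τ) h2
  -- the section over the half disc
  have hcD : Continuous fun t : ℂ => (addT (tC q) t, (τ : ℂ)) :=
    (continuous_addTC (tC q)).prodMk continuous_const
  have hmD : MapsTo (fun t : ℂ => (addT (tC q) t, (τ : ℂ))) (hD tv κ) (SLS P n l).X :=
    fun t ht' => (mem_SLS_X P).2 (hX t ht'.1 ht'.2)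
  have hl : tv - κ ∈ Icc (tv - κ) (tv + κ) := ⟨le_rfl, by linarith⟩
  have hr : tv + κ ∈ Icc (tv - κ) (tv + κ) := ⟨by linarith, le_rfl⟩
  have hlD := real_mem_hD hl
  have hmem : a (tv - κ) ∈ (SLS P n l).V (addT (tC q) ((tv - κ : ℝ) : ℂ), (τ : ℂ)) := by
    have := hSR.mem hl
    rwa [tC_addT] at this
  obtain ⟨A, hA, hA0⟩ := LS.Par.exists_star (A := SLS P n l) ((convex_hD tv κ).starConvex hlD) hlD
    hcD.continuousOn hmD hmem
  have hAR : (SLS P n l).Par (fun t : ℝ => (tC (addT q t), (τ : ℂ))) (Icc (tv - κ) (tv + κ))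
      (fun t => A (t : ℂ)) := by
    refine (hA.comp (g := fun t : ℝ => (t : ℂ)) (R := Icc (tv - κ) (tv + κ))
      Complex.continuous_ofReal.continuousOn fun t ht' => real_mem_hD ht').congr_map
      fun t _ => ?_
    simp only [Function.comp_apply, tC_addT]
  have hcR : Continuous fun t : ℝ => (tC (addT q t), (τ : ℂ)) := by
    have h1 : (fun t : ℝ => (tC (addT q t), (τ : ℂ))) =
        fun t : ℝ => (addT (tC q) (t : ℂ), (τ : ℂ)) := by
      funext t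
      rw [tC_addT]
    rw [h1]
    exact hcD.comp Complex.continuous_ofReal
  have heq : EqOn a (fun t : ℝ => A (t : ℂ)) (Icc (tv - κ) (tv + κ)) :=
    LS.Par.unique isPreconnected_Icc hcR.continuousOn
      (fun t ht' => (mem_SLS_X P).2 (hRm t ht')) hSR hAR hl hA0.symm
  -- to the V-system on the half circle
  have hmV : MapsTo (fun t : ℂ => (addT (tC q) t, (τ : ℂ))) (hC tv κ) (VLS P n l).X :=
    fun t ht' => (mem_VLS_X P).2 ⟨hs t ht'.1 ht'.2, hX t ht'.1.le ht'.2⟩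
  refine ⟨fun t => sl (A t), Par.sl P hmV hcD.continuousOn (hA.mono (hC_sub_hD tv κ)), ?_, ?_⟩
  · have := heq hl
    simp only at this ⊢
    rw [← this]
  · have := heq hr
    simp only at this ⊢
    rw [← this]

theorem Pr_addT (hO : IsOpen O) (hsub : ∀ x ∈ O, inOm q x) {t : ℝ}
    (h : IsCompact {x ∈ O | 0 ≤ fR 0 0 (addT q t) x}) : Pr (addT q t) O where
  isOpen := hO
  sub := fun x hx i => by
    rw [qvR_addT_succ]
    exact hsub x hx i
  compact := h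

/-- The Cauchy transform of a real cycle is a section off the real axis. -/
theorem JC_par (h : Pr q O) (hs : SingF (P.f (tC q)) = ∅) :
    (VLS P n l).Par (fun z => (tC q, z)) {z | z.im ≠ 0 ∧ z ∉ SigF (P.f (tC q))} (JC P q O) := by
  obtain ⟨R, hR⟩ := (Pr_closure (P := P) h).1.isBounded.exists_norm_le
  have hRn : ∀ x ∈ cyc P q O, |x (Fin.last n)| ≤ R := fun x hx =>
    (norm_le_pi_norm x (Fin.last n)).trans (hR x (subset_closure hx))
  have h1 := cyc_V (rfam_const (Pr_piece (P := P) h) (Pr_closure h).1) (fun s _ => hs)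
    (R := R) (fun p hp => hRn p.2 hp)
  have h2 := h1.comp (g := fun z : ℂ => ((0 : ℝ), z)) (R := {z | z.im ≠ 0 ∧
    z ∉ SigF (P.f (tC q))}) (Continuous.prodMk_right (0 : ℝ)).continuousOn
    (fun z hz => ⟨mem_univ _, Or.inl hz.1, hz.2⟩)
  exact h2

/-- The two continuations to the real axis and their difference. -/
theorem exists_JC_ext (h : Pr q O) (hs : SingF (P.f (tC q)) = ∅) :
    ∃ Jp Jm : ℂ → Fnl (n + 1),
      (VLS P n l).Par (fun z => (tC q, z)) (XCl (VLS P n l) (tC q) 1) Jp ∧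
      (VLS P n l).Par (fun z => (tC q, z)) (XCl (VLS P n l) (tC q) (-1)) Jm ∧
      EqOn Jp (JC P q O) (XO (VLS P n l) (tC q) 1) ∧
      EqOn Jm (JC P q O) (XO (VLS P n l) (tC q) (-1)) ∧
      ∀ τ : ℝ, (τ : ℂ) ∉ SigF (P.f (tC q)) → Jp τ - Jm τ = (2 * Real.pi * Complex.I) •
        sl (aU P.a (fR P.en P.eta q) (cyc P q O) τ) := by
  have hXO : ∀ σ : ℝ, XO (VLS P n l) (tC q) σ ⊆ {z | z.im ≠ 0 ∧ z ∉ SigF (P.f (tC q))} := by
    rintro σ z ⟨h1, h2⟩
    refine ⟨fun h0 => ?_, ((mem_VLS_X P).1 h1).2⟩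
    rw [h0, mul_zero] at h2
    exact lt_irrefl _ h2
  obtain ⟨Jp, hp1, hp2⟩ := exists_closed_ext (σ := 1) (Or.inl rfl) ((JC_par h hs).mono (hXO 1))
  obtain ⟨Jm, hm1, hm2⟩ := exists_closed_ext (σ := -1) (Or.inr rfl)
    ((JC_par h hs).mono (hXO (-1)))
  refine ⟨Jp, Jm, hp1, hm1, hp2, hm2, fun τ hτ => ?_⟩
  have hτX : (tC q, (τ : ℂ)) ∈ (VLS P n l).X := (mem_VLS_X P).2 ⟨hs, hτ⟩
  have hτp : (τ : ℂ) ∈ XCl (VLS P n l) (tC q) 1 := ⟨hτX, by simp⟩
  have hτm : (τ : ℂ) ∈ XCl (VLS P n l) (tC q) (-1) := ⟨hτX, by simp⟩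
  obtain ⟨Np, yp, hNp, hsp, hevp⟩ := hp1 τ hτp
  obtain ⟨Nm, ym, hNm, hsm, hevm⟩ := hm1 τ hτm
  rw [eventually_nhdsWithin_iff] at hevp hevm
  have hreg : IsOpen {z : ℂ | (tC q, z) ∈ (VLS P n l).X} :=
    (VLS P n l).isOpen_X.preimage (Continuous.prodMk_right (tC q))
  have hNpo : {z : ℂ | (tC q, z) ∈ Np} ∈ 𝓝 (τ : ℂ) :=
    (((VLS P n l).sol_open hsp).preimage (Continuous.prodMk_right (tC q))).mem_nhds hNp
  have hNmo : {z : ℂ | (tC q, z) ∈ Nm} ∈ 𝓝 (τ : ℂ) :=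
    (((VLS P n l).sol_open hsm).preimage (Continuous.prodMk_right (tC q))).mem_nhds hNm
  have hall := (((hevp.and hevm).and (hreg.mem_nhds hτX)).and hNpo).and hNmo
  obtain ⟨r, hr, hball⟩ := Metric.eventually_nhds_iff_ball.mp hall
  have hKp : (VLS P n l).Par (fun z => (tC q, z)) (Metric.ball (τ : ℂ) r)
      (fun z => yp (tC q, z)) :=
    LS.Par.of_sol (h := fun z : ℂ => (tC q, z)) hsp fun z hz => (hball z hz).1.2
  have hKm : (VLS P n l).Par (fun z => (tC q, z)) (Metric.ball (τ : ℂ) r)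
      (fun z => ym (tC q, z)) :=
    LS.Par.of_sol (h := fun z : ℂ => (tC q, z)) hsm fun z hz => (hball z hz).2
  have hbm : ∀ z σ, z ∈ hDisc (τ : ℂ) r σ → z ∈ Metric.ball (τ : ℂ) r ∧ 0 < σ * z.im := by
    intro z σ hz
    refine ⟨by rw [Metric.mem_ball, Complex.dist_eq]; exact hz.1, ?_⟩
    simpa using hz.2
  have hj := Pool.Agent.QC.JU_jump (Pr_piece (P := P) h) (Pr_closure h).1 hs hr
    (fun z hz => ((mem_VLS_X P).1 (hball z hz).1.1.2).2) hKp hKm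
    (fun z hz => by
      obtain ⟨h1, h2⟩ := hbm z 1 hz
      have hX1 : (tC q, z) ∈ (VLS P n l).X := (hball z h1).1.1.2
      have h3 := (hball z h1).1.1.1.1 ⟨hX1, h2.le⟩
      rw [← h3]
      exact hp2 ⟨hX1, h2⟩)
    (fun z hz => by
      obtain ⟨h1, h2⟩ := hbm z (-1) hz
      have hX1 : (tC q, z) ∈ (VLS P n l).X := (hball z h1).1.1.2
      have h3 := (hball z h1).1.1.1.2 ⟨hX1, h2.le⟩
      rw [← h3]
      exact hm2 ⟨hX1, h2⟩) (x := τ) (by simpa using hr)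
  have hc : (τ : ℂ) ∈ Metric.ball (τ : ℂ) r := Metric.mem_ball_self hr
  rw [← hj, (hball _ hc).1.1.1.1 hτp, (hball _ hc).1.1.1.2 hτm]

/-- (5.2) Jump lemma. -/
theorem jump (hO : IsOpen O) (hsub : ∀ x ∈ O, inOm q x) (hκ : 0 < κ) (ht : tv + κ < t₁)
    (h : ∀ t < t₁, IsCompact {x ∈ O | 0 ≤ fR 0 0 (addT q t) x}) {D : Set ℂ}
    (hX : ∀ t : ℂ, ‖t - tv‖ ≤ κ → 0 ≤ t.im → ∀ z ∈ D, z ∉ SigF (P.f (addT (tC q) t)))
    (hs : ∀ t : ℂ, ‖t - tv‖ = κ → 0 ≤ t.im → SingF (P.f (addT (tC q) t)) = ∅) {z₀ : ℂ}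
    (hz : z₀ ∈ D) (hzi : 0 < z₀.im) {u : ℂ → Fnl (n + 1)}
    (hu : (VLS P n l).Par (fun t : ℂ => (addT (tC q) t, z₀)) {t | ‖t - tv‖ = κ ∧ 0 ≤ t.im} u)
    (hu0 : u ((tv - κ : ℝ) : ℂ) = JC P (addT q (tv - κ)) O z₀) :
    ∃ v, (VLS P n l).Par (fun z => (tC (addT q (tv + κ)), z)) D v ∧
      v z₀ = JC P (addT q (tv + κ)) O z₀ - u ((tv + κ : ℝ) : ℂ) := by
  classical
  have hlC := left_mem_hC (tv := tv) hκ
  have hrC := right_mem_hC (tv := tv) hκ
  have hPm : Pr (addT q (tv - κ)) O := Pr_addT hO hsub (h _ (by linarith))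
  have hPp : Pr (addT q (tv + κ)) O := Pr_addT hO hsub (h _ ht)
  have hsm : SingF (P.f (tC (addT q (tv - κ)))) = ∅ := sing_real hs hlC
  have hsp : SingF (P.f (tC (addT q (tv + κ)))) = ∅ := sing_real hs hrC
  obtain ⟨Jmp, Jmm, a1, a2, a3, a4, a5⟩ := exists_JC_ext (P := P) hPm hsm
  obtain ⟨Jpp, Jpm, b1, b2, b3, b4, b5⟩ := exists_JC_ext (P := P) hPp hsp
  have hXm : ∀ z ∈ D, z ∉ SigF (P.f (tC (addT q (tv - κ)))) := fun z hz' => by
    rw [tC_addT]
    exact hX _ hlC.1.le hlC.2 z hz'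
  have hXp : ∀ z ∈ D, z ∉ SigF (P.f (tC (addT q (tv + κ)))) := fun z hz' => by
    rw [tC_addT]
    exact hX _ hrC.1.le hrC.2 z hz'
  -- the homotopy
  set H : ℂ × ℝ → Tup n l × ℂ := fun p => (addT (tC q) (hγ tv κ p.2), p.1) with hH
  have hHc : Continuous H :=
    ((continuous_addTC (tC q)).comp ((continuous_hγ tv κ).comp continuous_snd)).prodMk
      continuous_fst
  have hHX : ∀ z ∈ D, ∀ s ∈ Icc (0 : ℝ) 1, H (z, s) ∈ (VLS P n l).X := fun z hz' s hs' =>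
    (mem_VLS_X P).2 ⟨hs _ (hγ_mem hκ hs').1 (hγ_mem hκ hs').2,
      hX _ (hγ_mem hκ hs').1.le (hγ_mem hκ hs').2 z hz'⟩
  have hH0 : ∀ z : ℂ, H (z, 0) = (tC (addT q (tv - κ)), z) := fun z => by
    simp only [hH, hγ_zero, tC_addT]
  have hH1 : ∀ z : ℂ, H (z, 1) = (tC (addT q (tv + κ)), z) := fun z => by
    simp only [hH, hγ_one, tC_addT]
  have h0I : (0 : ℝ) ∈ Icc (0 : ℝ) 1 := ⟨le_rfl, zero_le_one⟩
  have h1I : (1 : ℝ) ∈ Icc (0 : ℝ) 1 := ⟨zero_le_one, le_rfl⟩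
  set Dp : Set ℂ := D ∩ {z | 0 ≤ z.im} with hDp
  set Dm : Set ℂ := D ∩ {z | z.im ≤ 0} with hDm
  -- lifts
  have hlift : ∀ (S : Set ℂ) (J : ℂ → Fnl (n + 1)), S ⊆ D →
      (VLS P n l).Par (fun z => (tC (addT q (tv - κ)), z)) S J →
      ∃ F : ℂ × ℝ → Fnl (n + 1), (VLS P n l).Par H (S ×ˢ Icc 0 1) F ∧ ∀ z ∈ S, F (z, 0) = J z := by
    intro S J hSD hJ
    exact LS.Par.lift hHc.continuousOn (fun p hp => hHX p.1 (hSD hp.1) p.2 hp.2)
      (hJ.congr_map fun z _ => (hH0 z).symm)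
  have hat1 : ∀ (S : Set ℂ) (F : ℂ × ℝ → Fnl (n + 1)), (VLS P n l).Par H (S ×ˢ Icc 0 1) F →
      (VLS P n l).Par (fun z => (tC (addT q (tv + κ)), z)) S (fun z => F (z, 1)) := by
    intro S F hF
    exact (hF.comp (g := fun z : ℂ => (z, (1 : ℝ))) (Continuous.prodMk_left (1 : ℝ)).continuousOn
      (fun z hz' => ⟨hz', h1I⟩)).congr_map fun z _ => hH1 z
  have hatz : ∀ (S : Set ℂ) (F : ℂ × ℝ → Fnl (n + 1)), (VLS P n l).Par H (S ×ˢ Icc 0 1) F →
      ∀ z ∈ S, (VLS P n l).Par (fun s : ℝ => H (z, s)) (Icc 0 1) (fun s => F (z, s)) := by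
    intro S F hF z hz'
    exact hF.comp (g := fun s : ℝ => (z, s)) (Continuous.prodMk_right z).continuousOn
      (fun s hs' => ⟨hz', hs'⟩)
  have hDpX : Dp ⊆ XCl (VLS P n l) (tC (addT q (tv - κ))) 1 := fun z hz' =>
    ⟨(mem_VLS_X P).2 ⟨hsm, hXm z hz'.1⟩, by rw [one_mul]; exact hz'.2⟩
  have hDmX : Dm ⊆ XCl (VLS P n l) (tC (addT q (tv - κ))) (-1) := fun z hz' =>
    ⟨(mem_VLS_X P).2 ⟨hsm, hXm z hz'.1⟩, by
      have := hz'.2
      simp only [mem_ofPred_eq] at this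
      linarith⟩
  have hDpX' : Dp ⊆ XCl (VLS P n l) (tC (addT q (tv + κ))) 1 := fun z hz' =>
    ⟨(mem_VLS_X P).2 ⟨hsp, hXp z hz'.1⟩, by rw [one_mul]; exact hz'.2⟩
  have hDmX' : Dm ⊆ XCl (VLS P n l) (tC (addT q (tv + κ))) (-1) := fun z hz' =>
    ⟨(mem_VLS_X P).2 ⟨hsp, hXp z hz'.1⟩, by
      have := hz'.2
      simp only [mem_ofPred_eq] at this
      linarith⟩
  obtain ⟨Fp, hFp, hFp0⟩ := hlift Dp Jmp inter_subset_left (a1.mono hDpX)
  obtain ⟨Fm, hFm, hFm0⟩ := hlift Dm Jmm inter_subset_left (a2.mono hDmX)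
  have hlin := VLS_lin (n := n) (l := l) P
  have hcq : ∀ (q' : Tup n l) (S : Set ℂ), ContinuousOn (fun z : ℂ => (q', z)) S := fun q' S =>
    (Continuous.prodMk_right q').continuousOn
  have hsubP : ∀ {T : Type} [TopologicalSpace T] {g : T → Tup n l × ℂ} {S : Set T}
      {u u' : T → Fnl (n + 1)}, ContinuousOn g S → (VLS P n l).Par g S u →
      (VLS P n l).Par g S u' → (VLS P n l).Par g S (fun t => u t - u' t) := by
    intro T _ g S u u' hg h1 h2
    refine (LS.Par.add hlin hg h1 (LS.Par.smul hlin (-1) h2)).congr fun t _ => ?_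
    simp [sub_eq_add_neg]
  have hep : (VLS P n l).Par (fun z => (tC (addT q (tv + κ)), z)) Dp
      (fun z => Jpp z - Fp (z, 1)) :=
    hsubP (hcq _ _) (b1.mono hDpX') (hat1 Dp Fp hFp)
  have hem : (VLS P n l).Par (fun z => (tC (addT q (tv + κ)), z)) Dm
      (fun z => Jpm z - Fm (z, 1)) :=
    hsubP (hcq _ _) (b2.mono hDmX') (hat1 Dm Fm hFm)
  -- equality at real points
  have hreal : ∀ z ∈ D, z.im = 0 → Jpp z - Fp (z, 1) = Jpm z - Fm (z, 1) := by
    intro z hz' hz0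
    obtain ⟨τ, rfl⟩ : ∃ τ : ℝ, z = (τ : ℂ) := ⟨z.re, Complex.ext rfl (by simpa using hz0)⟩
    have hzp : (τ : ℂ) ∈ Dp := ⟨hz', by simp⟩
    have hzm : (τ : ℂ) ∈ Dm := ⟨hz', by simp⟩
    obtain ⟨w, hw, hw0, hw1⟩ := slice_transport (P := P) hO hsub hκ ht h
      (fun t h1 h2 => hX t h1 h2 _ hz') hs
    have hcs : ContinuousOn (fun s : ℝ => H ((τ : ℂ), s)) (Icc 0 1) :=
      (hHc.comp (Continuous.prodMk_right (τ : ℂ))).continuousOn
    have h1 := hsubP hcs (hatz Dp Fp hFp _ hzp) (hatz Dm Fm hFm _ hzm)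
    have h2 : (VLS P n l).Par (fun s : ℝ => H ((τ : ℂ), s)) (Icc 0 1)
        (fun s => (2 * Real.pi * Complex.I) • w (hγ tv κ s)) :=
      LS.Par.smul hlin _ (hw.comp (g := hγ tv κ) (continuous_hγ tv κ).continuousOn
        fun s hs' => hγ_mem hκ hs')
    have h3 := LS.Par.unique isPreconnected_Icc hcs (fun s hs' => hHX _ hz' s hs') h1 h2 h0I
      (by rw [hFp0 _ hzp, hFm0 _ hzm, a5 τ (hXm _ hz'), hγ_zero, hw0])
    have h4 := h3 h1I
    simp only at h4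
    rw [hγ_one, hw1, ← b5 τ (hXp _ hz')] at h4
    have h5 : Jpp (τ : ℂ) - Fp ((τ : ℂ), 1) - (Jpm (τ : ℂ) - Fm ((τ : ℂ), 1)) =
        (Jpp (τ : ℂ) - Jpm (τ : ℂ)) - (Fp ((τ : ℂ), 1) - Fm ((τ : ℂ), 1)) := by abel
    rw [← sub_eq_zero, h5, h4, sub_self]
  -- gluing
  have hDU : D = Dp ∪ Dm := by
    ext z
    constructor
    · intro hz'
      rcases le_total 0 z.im with h1 | h1
      · exact Or.inl ⟨hz', h1⟩
      · exact Or.inr ⟨hz', h1⟩
    · rintro (h1 | h1)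
      · exact h1.1
      · exact h1.1
  refine ⟨fun z => if 0 ≤ z.im then Jpp z - Fp (z, 1) else Jpm z - Fm (z, 1), ?_, ?_⟩
  · have hXD : MapsTo (fun z : ℂ => (tC (addT q (tv + κ)), z)) (Dp ∪ Dm) (VLS P n l).X := by
      rw [← hDU]
      exact fun z hz' => (mem_VLS_X P).2 ⟨hsp, hXp z hz'⟩
    have := LS.Par.union (hcq (tC (addT q (tv + κ))) (Dp ∪ Dm)) hXD
      (u := fun z => if 0 ≤ z.im then Jpp z - Fp (z, 1) else Jpm z - Fm (z, 1))
      (hep.congr fun z hz' => by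
        have h9 : 0 ≤ z.im := hz'.2
        rw [if_pos h9])
      (hem.congr fun z hz' => by
        simp only
        split_ifs with h1
        · exact (hreal z hz'.1 (le_antisymm hz'.2 h1)).symm
        · rfl)
      ⟨{z | 0 ≤ z.im}, isClosed_le continuous_const Complex.continuous_im, by
        rw [← hDU, hDp, inter_comm]⟩
      ⟨{z | z.im ≤ 0}, isClosed_le Complex.continuous_im continuous_const, by
        rw [← hDU, hDm, inter_comm]⟩
    rwa [← hDU] at this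
  · simp only
    rw [if_pos hzi.le]
    have hzp : z₀ ∈ Dp := ⟨hz, hzi.le⟩
    have hXOm : z₀ ∈ XO (VLS P n l) (tC (addT q (tv - κ))) 1 :=
      ⟨(mem_VLS_X P).2 ⟨hsm, hXm z₀ hz⟩, by rw [one_mul]; exact hzi⟩
    have hXOp : z₀ ∈ XO (VLS P n l) (tC (addT q (tv + κ))) 1 :=
      ⟨(mem_VLS_X P).2 ⟨hsp, hXp z₀ hz⟩, by rw [one_mul]; exact hzi⟩
    have hcs : ContinuousOn (fun s : ℝ => H (z₀, s)) (Icc 0 1) :=
      (hHc.comp (Continuous.prodMk_right z₀)).continuousOn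
    have h2 : (VLS P n l).Par (fun s : ℝ => H (z₀, s)) (Icc 0 1) (fun s => u (hγ tv κ s)) :=
      hu.comp (g := hγ tv κ) (continuous_hγ tv κ).continuousOn fun s hs' => hγ_mem hκ hs'
    have h3 := LS.Par.unique isPreconnected_Icc hcs (fun s hs' => hHX _ hz s hs')
      (hatz Dp Fp hFp _ hzp) h2 h0I (by
        rw [hFp0 _ hzp, a3 hXOm, hγ_zero, hu0])
    have h4 := h3 h1I
    simp only at h4
    rw [hγ_one] at h4
    rw [h4, b3 hXOp]

end Level

end Pool.Agent.QC.Cyc
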