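import Pool.Agent.QC.Cyc.Defs

/-!
# MP_7c50a9_lc, section 4: pieces defined at `eta = 0`

Proofs of the statements `Pr.piece`, `Pr.closure`, `Pr.level`, `Pr.frame`, `Pr.shX` of
Cyc/Iface.lean.
-/

namespace Pool.Agent.QC.Cyc

open MvPolynomial Filter Topology Set

variable {n l : ℕ} {P : Prm} {q : RTup n l} {O : Set (Fin (n + 1) → ℝ)}

/-! ## Continuity and comparison -/

theorem continuous_qvR2 {X : Type*} [TopologicalSpace X] {N : ℕ} {p : X → QP ℝ N}
    {x : X → Fin N → ℝ} (hp : Continuous p) (hx : Continuous x) :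
    Continuous fun s => qvR (p s) (x s) := by
  unfold qvR
  have h1 : ∀ i j, Continuous fun s => (p s).1 i j := fun i j =>
    (continuous_apply j).comp ((continuous_apply i).comp (continuous_fst.comp hp))
  have h2 : ∀ i, Continuous fun s => (p s).2.1 i := fun i =>
    (continuous_apply i).comp (continuous_fst.comp (continuous_snd.comp hp))
  have h3 : Continuous fun s => (p s).2.2 := continuous_snd.comp (continuous_snd.comp hp)
  have h4 : ∀ i, Continuous fun s => x s i := fun i => (continuous_apply i).comp hx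
  refine ((continuous_finsetSum _ fun i _ => continuous_finsetSum _ fun j _ =>
    ((h1 i j).mul (h4 i)).mul (h4 j)).add (continuous_finsetSum _ fun i _ =>
    (h2 i).mul (h4 i))).add h3

theorem continuous_fR2 {X : Type*} [TopologicalSpace X] {h : X → RTup n l}
    {x : X → Fin (n + 1) → ℝ} (hh : Continuous h) (hx : Continuous x) (en eta : ℝ) :
    Continuous fun s => fR en eta (h s) (x s) := by
  unfold fR
  have h4 : ∀ i, Continuous fun s => x s i := fun i => (continuous_apply i).comp hx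
  refine ((continuous_finsetProd _ fun m _ => continuous_qvR2 (p := fun s => h s m)
    ((continuous_apply m).comp hh) hx).sub continuous_const).sub (continuous_const.mul ?_)
  exact (continuous_finsetSum _ fun i _ => (h4 _).pow _).add (continuous_const.mul ((h4 _).pow _))

theorem continuous_fR (q : RTup n l) (en eta : ℝ) : Continuous (fR en eta q) :=
  continuous_fR2 continuous_const continuous_id en eta

theorem fR_zero (q : RTup n l) (x : Fin (n + 1) → ℝ) :
    fR 0 0 q x = (∏ m, qvR (q m) x) - 1 := by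
  unfold fR
  ring

theorem fR_le (P : Prm) (q : RTup n l) (x : Fin (n + 1) → ℝ) :
    fR P.en P.eta q x ≤ fR 0 0 q x := by
  rw [fR_zero]
  unfold fR
  have hev : Even (DD l) := ⟨l + 2, by unfold DD; ring⟩
  have h1 : 0 ≤ ∑ i : Fin n, x i.castSucc ^ DD l := Finset.sum_nonneg fun i _ => hev.pow_nonneg _
  have h2 : 0 ≤ P.en * x (Fin.last n) ^ DD l := mul_nonneg P.en_pos.le (hev.pow_nonneg _)
  have h3 := mul_nonneg P.eta_pos.le (add_nonneg h1 h2)
  linarith

theorem isOpen_cyc (hO : IsOpen O) : IsOpen (cyc P q O) :=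
  hO.inter (isOpen_lt continuous_const (continuous_fR q P.en P.eta))

/-- the compact set of `O` -/
theorem closure_cyc_subset (h : Pr q O) :
    closure (cyc P q O) ⊆ {x ∈ O | 0 ≤ fR 0 0 q x} :=
  closure_minimal (fun x hx => ⟨hx.1, hx.2.le.trans (fR_le P q x)⟩) h.compact.isClosed

theorem Pr_closure (h : Pr q O) : IsCompact (closure (cyc P q O)) ∧
    closure (cyc P q O) ⊆ {x ∈ O | 0 ≤ fR 0 0 q x} :=
  ⟨h.compact.of_isClosed_subset isClosed_closure (closure_cyc_subset h), closure_cyc_subset h⟩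

theorem Pr_piece (h : Pr q O) : S4.Piece (fR P.en P.eta q) (cyc P q O) univ where
  isOpenD := isOpen_univ
  isOpen := isOpen_cyc h.isOpen
  sub := subset_univ _
  pos := fun x hx => hx.2
  zero := by
    intro x _ hx hx'
    have h1 : x ∈ O := (closure_cyc_subset h hx).1
    have h2 : 0 ≤ fR P.en P.eta q x := by
      have hcl : IsClosed {y | 0 ≤ fR P.en P.eta q y} :=
        isClosed_le continuous_const (continuous_fR q P.en P.eta)
      exact closure_minimal (fun y hy => (hy.2.le : 0 ≤ fR P.en P.eta q y)) hcl hx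
    refine le_antisymm (not_lt.mp fun hlt => hx' ⟨h1, hlt⟩) h2

/-! ## The level family -/

theorem qvR_addT_zero (q : RTup n l) (t : ℝ) (x : Fin (n + 1) → ℝ) :
    qvR (addT q t 0) x = qvR (q 0) x + t := by
  simp only [addT, if_true, qvR]
  ring

theorem qvR_addT_succ (q : RTup n l) (t : ℝ) (i : Fin l) (x : Fin (n + 1) → ℝ) :
    qvR (addT q t i.succ) x = qvR (q i.succ) x := by
  simp [addT, Fin.succ_ne_zero]

theorem fR_addT (q : RTup n l) (t : ℝ) (x : Fin (n + 1) → ℝ) :
    fR 0 0 (addT q t) x = (qvR (q 0) x + t) * (∏ i : Fin l, qvR (q i.succ) x) - 1 := by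
  rw [fR_zero, Fin.prod_univ_succ, qvR_addT_zero]
  simp only [qvR_addT_succ]

theorem fR_addT_mono {x : Fin (n + 1) → ℝ} (hx : inOm q x) {s t : ℝ} (hst : s ≤ t) :
    fR 0 0 (addT q s) x ≤ fR 0 0 (addT q t) x := by
  rw [fR_addT, fR_addT]
  have h1 : 0 < ∏ i : Fin l, qvR (q i.succ) x := Finset.prod_pos fun i _ => hx i
  have := mul_le_mul_of_nonneg_right (add_le_add_right hst (qvR (q 0) x)) h1.le
  linarith

theorem contDiff_addT (q : RTup n l) : ContDiff ℝ ⊤ fun t : ℝ => addT q t := by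
  rw [contDiff_pi]
  intro m
  unfold addT
  split_ifs
  · exact contDiff_const.prodMk (contDiff_const.prodMk (contDiff_const.add contDiff_id))
  · exact contDiff_const

theorem continuous_addT (q : RTup n l) : Continuous fun t : ℝ => addT q t :=
  (contDiff_addT q).continuous

/-- the compact sets of the levels -/
def KL (q : RTup n l) (O : Set (Fin (n + 1) → ℝ)) (t : ℝ) : Set (Fin (n + 1) → ℝ) :=
  {x | x ∈ O ∧ 0 ≤ fR 0 0 (addT q t) x}

/-- the level family -/
def TL (P : Prm) (q : RTup n l) (O : Set (Fin (n + 1) → ℝ)) (t₁ : ℝ) :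
    Set (ℝ × (Fin (n + 1) → ℝ)) :=
  {p | p.2 ∈ cyc P (addT q p.1) O ∧ p.1 < t₁}

theorem continuous_fL (P : Prm) (q : RTup n l) :
    Continuous fun p : ℝ × (Fin (n + 1) → ℝ) => fR P.en P.eta (addT q p.1) p.2 :=
  continuous_fR2 ((continuous_addT q).comp continuous_fst) continuous_snd _ _

/-- points of the piece at a level `s < t` are in the compact set of level `t` -/
theorem mem_KL {t t₁ : ℝ} (hsub : ∀ x ∈ O, inOm q x) {p : ℝ × (Fin (n + 1) → ℝ)}
    (hp : p ∈ TL P q O t₁) (hpt : p.1 < t) : p.2 ∈ KL q O t :=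
  ⟨hp.1.1, hp.1.2.le.trans ((fR_le P _ _).trans (fR_addT_mono (hsub _ hp.1.1) hpt.le))⟩

theorem isOpen_TL (hO : IsOpen O) (t₁ : ℝ) : IsOpen (TL P q O t₁) := by
  have : TL P q O t₁ =
      (Prod.snd ⁻¹' O ∩ {p | 0 < fR P.en P.eta (addT q p.1) p.2}) ∩ {p | p.1 < t₁} := by
    ext p
    rfl
  rw [this]
  exact ((hO.preimage continuous_snd).inter (isOpen_lt continuous_const (continuous_fL P q))).inter
    (isOpen_lt continuous_fst continuous_const)

theorem snd_mem_KL {t t₁ : ℝ} (hsub : ∀ x ∈ O, inOm q x) (hK : IsClosed (KL q O t))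
    {p : ℝ × (Fin (n + 1) → ℝ)} (hp : p ∈ closure (TL P q O t₁)) (hpt : p.1 < t) :
    p.2 ∈ KL q O t := by
  have hop : IsOpen {p : ℝ × (Fin (n + 1) → ℝ) | p.1 < t} :=
    isOpen_lt continuous_fst continuous_const
  have hmem : p ∈ closure ({p | p.1 < t} ∩ TL P q O t₁) := hop.inter_closure ⟨hpt, hp⟩
  have hcl : IsClosed (Prod.snd ⁻¹' (KL q O t) : Set (ℝ × (Fin (n + 1) → ℝ))) :=
    hK.preimage continuous_snd
  have hsub' : {p : ℝ × (Fin (n + 1) → ℝ) | p.1 < t} ∩ TL P q O t₁ ⊆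
      (Prod.snd ⁻¹' (KL q O t) : Set (ℝ × (Fin (n + 1) → ℝ))) := fun p hp =>
    mem_KL hsub hp.2 hp.1
  exact closure_minimal hsub' hcl hmem

theorem fL_nonneg {t₁ : ℝ} {p : ℝ × (Fin (n + 1) → ℝ)} (hp : p ∈ closure (TL P q O t₁)) :
    0 ≤ fR P.en P.eta (addT q p.1) p.2 := by
  have hcl : IsClosed {p : ℝ × (Fin (n + 1) → ℝ) | 0 ≤ fR P.en P.eta (addT q p.1) p.2} :=
    isClosed_le continuous_const (continuous_fL P q)
  have hsub : TL P q O t₁ ⊆ {p : ℝ × (Fin (n + 1) → ℝ) | 0 ≤ fR P.en P.eta (addT q p.1) p.2} :=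
    fun p hp => hp.1.2.le
  exact closure_minimal hsub hcl hp

theorem Pr_level {t₁ : ℝ} (hO : IsOpen O) (hsub : ∀ x ∈ O, inOm q x)
    (h : ∀ t < t₁, IsCompact {x ∈ O | 0 ≤ fR 0 0 (addT q t) x}) :
    RFam P (Iio t₁) (fun t => addT q t) {p | p.2 ∈ cyc P (addT q p.1) O ∧ p.1 < t₁} := by
  refine ⟨isOpen_Iio, (contDiff_addT q).contDiffOn.of_le (by exact_mod_cast le_top), ?_, ?_⟩
  · refine ⟨isOpen_Iio.prod isOpen_univ, isOpen_TL hO t₁, fun p hp => ⟨hp.2, mem_univ _⟩,
      fun p hp => hp.1.2, ?_⟩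
    intro p hs hx hx'
    have hs1 : p.1 < t₁ := hs.1
    have hst : p.1 < (p.1 + t₁) / 2 := by linarith
    have htt : (p.1 + t₁) / 2 < t₁ := by linarith
    have h2 : 0 ≤ fR P.en P.eta (addT q p.1) p.2 := fL_nonneg hx
    have h1 : p.2 ∈ O := (snd_mem_KL hsub (h _ htt).isClosed hx hst).1
    exact le_antisymm (not_lt.mp fun hlt => hx' ⟨⟨h1, hlt⟩, hs1⟩) h2
  · intro s hs
    have hs1 : s < t₁ := hs
    obtain ⟨R, hR⟩ := (h ((s + t₁) / 2) (by linarith)).isBounded.exists_norm_le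
    refine ⟨(s + t₁) / 2 - s, by linarith, R, fun p hp hps => hR _ (mem_KL hsub hp ?_)⟩
    have := (abs_lt.mp hps).2
    linarith

end Pool.Agent.QC.Cyc
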