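import Pool.Agent.QC.Cyc.Single
import Pool.Agent.QC.Ev.RealD
import Pool.Agent.QC.S4.Fnl
import Pool.Agent.QC.S4.Label
import Pool.Agent.QC.Loc.Shift

/-!
# MP_7c50a9_lc, sections 4.3 and 4.5: real points of `f`, continuity of shifted values

`fP P q` is the real polynomial of `fR P.en P.eta q`; critical points; local maxima in slices;
`tendsto_shift`: continuity of `z ↦ K z (shift z Q)`.
-/

namespace Pool.Agent.QC.Cyc

open MvPolynomial Filter Topology Set MeasureTheory
open scoped ContDiff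

variable {n l : ℕ} {P : Prm}

/-- The real polynomial of `f`. -/
noncomputable def fP (P : Prm) (q : RTup n l) : MvPolynomial (Fin (n + 1)) ℝ :=
  Red.f0R q - C P.eta * ((∑ i : Fin n, X i.castSucc ^ DD l) + C P.en * X (Fin.last n) ^ DD l)

theorem eval_fP (q : RTup n l) (x : Fin (n + 1) → ℝ) :
    eval x (fP P q) = fR P.en P.eta q x := by
  simp [fP, Red.eval_f0R, fR, map_sum]

theorem fR_fun (q : RTup n l) : fR P.en P.eta q = fun x => eval x (fP P q) :=
  funext fun x => (eval_fP q x).symm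

theorem map_fP (q : RTup n l) : map Complex.ofRealHom (fP P q) = P.f (tC q) := by
  simp [fP, Prm.f, fpol, Red.map_f0R, Eform, map_sum]

theorem contDiff_fR (q : RTup n l) {k : WithTop ℕ∞} : ContDiff ℝ k (fR P.en P.eta q) := by
  rw [fR_fun]
  exact Red.contDiff_eval _

theorem eval_f_real (q : RTup n l) (x : Fin (n + 1) → ℝ) :
    eval (xC x) (P.f (tC q)) = ((fR P.en P.eta q x : ℝ) : ℂ) := by
  rw [← map_fP, ← eval_fP]
  exact Red.eval_map_ofReal _ _

theorem eval_pderiv_real (q : RTup n l) (x : Fin (n + 1) → ℝ) (i : Fin (n + 1)) :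
    eval (xC x) (pderiv i (P.f (tC q))) =
      ((fderiv ℝ (fR P.en P.eta q) x (Pi.single i 1) : ℝ) : ℂ) := by
  rw [← map_fP, pderiv_map, fR_fun, Red.fderiv_eval_single]
  exact Red.eval_map_ofReal _ _

theorem hess'_real (q : RTup n l) (x : Fin (n + 1) → ℝ) (i j : Fin n) :
    hess' (P.f (tC q)) (xC x) i j =
      ((eval x (pderiv i.castSucc (pderiv j.castSucc (fP P q))) : ℝ) : ℂ) := by
  rw [hess', ← map_fP, pderiv_map, pderiv_map]
  exact Red.eval_map_ofReal _ _

theorem critF_iff (q : RTup n l) (x : Fin (n + 1) → ℝ) :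
    xC x ∈ CritF (P.f (tC q)) ↔ S4.CritR (fR P.en P.eta q) x := by
  rw [CritF, mem_ofPred_eq, eval_f_real]
  simp only [eval_pderiv_real]
  rw [S4.CritR]
  constructor
  · rintro ⟨h1, h2⟩
    exact ⟨by exact_mod_cast h1, fun i => by exact_mod_cast h2 i⟩
  · rintro ⟨h1, h2⟩
    exact ⟨by exact_mod_cast h1, fun i => by exact_mod_cast h2 i⟩

theorem xC_injective {m : ℕ} : Function.Injective (xC : (Fin m → ℝ) → (Fin m → ℂ)) := by
  intro x y h
  funext i
  have := congrFun h i
  simpa [xC] using this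

/-! ## Local maxima in slices -/

/-- The inclusion of the slice. -/
theorem hasFDerivAt_snτ (τ : ℝ) (x : Fin n → ℝ) :
    HasFDerivAt (fun x : Fin n → ℝ => S4.sn n (τ, x))
      (((S4.sn n : (ℝ × (Fin n → ℝ)) →L[ℝ] (Fin (n + 1) → ℝ))).comp
        (ContinuousLinearMap.inr ℝ ℝ (Fin n → ℝ))) x := by
  have h1 : HasFDerivAt (fun x : Fin n → ℝ => (τ, x))
      (ContinuousLinearMap.inr ℝ ℝ (Fin n → ℝ)) x := by
    have := (hasFDerivAt_const (𝕜 := ℝ) τ x).prodMk (hasFDerivAt_id (𝕜 := ℝ) x)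
    exact this
  exact (S4.sn n).hasFDerivAt.comp x h1

theorem fderiv_slice (p : MvPolynomial (Fin (n + 1)) ℝ) (τ : ℝ) (x : Fin n → ℝ) (i : Fin n) :
    fderiv ℝ (fun x : Fin n → ℝ => eval (S4.sn n (τ, x)) p) x (Pi.single i 1) =
      eval (S4.sn n (τ, x)) (pderiv i.castSucc p) := by
  have h1 : HasFDerivAt (fun y : Fin (n + 1) → ℝ => eval y p)
      (fderiv ℝ (fun y : Fin (n + 1) → ℝ => eval y p) (S4.sn n (τ, x))) (S4.sn n (τ, x)) :=
    (Red.hasStrictFDerivAt_eval p _).hasFDerivAt.differentiableAt.hasFDerivAt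
  have h2 := (h1.comp x (hasFDerivAt_snτ τ x)).fderiv
  have h3 : fderiv ℝ (fun x : Fin n → ℝ => eval (S4.sn n (τ, x)) p) x =
      (fderiv ℝ (fun y : Fin (n + 1) → ℝ => eval y p) (S4.sn n (τ, x))).comp
      (((S4.sn n : (ℝ × (Fin n → ℝ)) →L[ℝ] (Fin (n + 1) → ℝ))).comp
        (ContinuousLinearMap.inr ℝ ℝ (Fin n → ℝ))) := h2
  rw [h3, ContinuousLinearMap.comp_apply, ContinuousLinearMap.comp_apply,
    ContinuousLinearMap.inr_apply]
  have h4 : ((S4.sn n : (ℝ × (Fin n → ℝ)) →L[ℝ] (Fin (n + 1) → ℝ)))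
      ((0 : ℝ), (Pi.single i 1 : Fin n → ℝ)) = Pi.single i.castSucc 1 := S4.sn_single i
  rw [h4, Red.fderiv_eval_single]

theorem contDiff_slice (p : MvPolynomial (Fin (n + 1)) ℝ) (τ : ℝ) {k : WithTop ℕ∞} :
    ContDiff ℝ k (fun x : Fin n → ℝ => eval (S4.sn n (τ, x)) p) :=
  (Red.contDiff_eval p).comp ((S4.sn n).contDiff.comp (contDiff_const.prodMk contDiff_id))

theorem fderiv_fderiv_slice (p : MvPolynomial (Fin (n + 1)) ℝ) (τ : ℝ) (x : Fin n → ℝ)
    (i j : Fin n) :
    fderiv ℝ (fderiv ℝ (fun x : Fin n → ℝ => eval (S4.sn n (τ, x)) p)) x (Pi.single i 1)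
      (Pi.single j 1) = eval (S4.sn n (τ, x)) (pderiv i.castSucc (pderiv j.castSucc p)) := by
  set g : (Fin n → ℝ) → ℝ := fun x => eval (S4.sn n (τ, x)) p with hg
  have h1 : DifferentiableAt ℝ (fderiv ℝ g) x :=
    ((contDiff_slice p τ (k := 2)).fderiv_right (m := 1) (by norm_num)).differentiable
      (by norm_num) x
  have h2 : fderiv ℝ (fun x => fderiv ℝ g x (Pi.single j 1)) x (Pi.single i 1) =
      fderiv ℝ (fderiv ℝ g) x (Pi.single i 1) (Pi.single j 1) := by
    have h3 := (ContinuousLinearMap.apply ℝ ℝ (Pi.single j (1 : ℝ) : Fin n → ℝ)).hasFDerivAt.comp x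
      h1.hasFDerivAt
    have h4 := h3.fderiv
    have h5 : ((ContinuousLinearMap.apply ℝ ℝ (Pi.single j (1 : ℝ) : Fin n → ℝ)) ∘
        (fderiv ℝ g)) = fun x => fderiv ℝ g x (Pi.single j 1) := rfl
    rw [h5] at h4
    rw [h4]
    rfl
  rw [← h2]
  have h6 : (fun x => fderiv ℝ g x (Pi.single j 1)) =
      fun x => eval (S4.sn n (τ, x)) (pderiv j.castSucc p) := by
    funext x
    exact fderiv_slice p τ x j
  rw [h6, fderiv_slice]

/-- A nondegenerate maximum in the slice is a local maximum. -/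
theorem slice_max {q : RTup n l} {w : Fin (n + 1) → ℝ} (hw : xC w ∈ CritF (P.f (tC q)))
    (hneg : ∀ b : Fin n → ℝ, b ≠ 0 →
      ∑ i, ∑ j, b i * b j * (hess' (P.f (tC q)) (xC w) i j).re < 0) :
    ∀ᶠ x in 𝓝 w, x (Fin.last n) = w (Fin.last n) → fR P.en P.eta q x ≤ 0 := by
  set τ := w (Fin.last n) with hτ
  set w' : Fin n → ℝ := fun i => w i.castSucc with hw'
  have hsnw : S4.sn n (τ, w') = w := by
    funext i
    refine Fin.lastCases ?_ (fun j => ?_) i
    · rw [S4.sn_last]
    · rw [S4.sn_castSucc]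
  set p := fP P q with hp
  set g : (Fin n → ℝ) → ℝ := fun x => eval (S4.sn n (τ, x)) p with hg
  have hcr := (critF_iff q w).mp hw
  have hgw : g w' = 0 := by
    rw [hg]
    simp only
    rw [hsnw, hp, eval_fP]
    exact hcr.1
  have hgs : ContDiff ℝ 2 g := contDiff_slice p τ
  have hdg : fderiv ℝ g w' = 0 := by
    ext v
    have h1 : v = ∑ i, v i • (Pi.single i 1 : Fin n → ℝ) := by
      ext k
      simp [Finset.sum_apply, Pi.single_apply]
    rw [h1, map_sum, zero_apply]
    refine Finset.sum_eq_zero fun i _ => ?_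
    rw [map_smul, fderiv_slice, hsnw]
    have h2 := hcr.2 i
    rw [fR_fun, Red.fderiv_eval_single] at h2
    rw [← hp] at h2
    rw [h2, smul_zero]
  have hnd : S4.NonDeg g w' (fderiv ℝ (fderiv ℝ g) w') 0 := by
    refine ⟨hgw, ⟨fderiv ℝ g, Eventually.of_forall fun y =>
      (hgs.differentiable (by norm_num) y).hasFDerivAt, hdg, ?_⟩, fun x => rfl,
      fun x hx => absurd rfl hx, fun x hx => ?_⟩
    · exact (hgs.fderiv_right (m := 1) (by norm_num)).contDiffAt.hasStrictFDerivAt (by norm_num)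
    · have hx' : x ≠ 0 := by simpa using hx
      have e0 : x - (0 : (Fin n → ℝ) →L[ℝ] (Fin n → ℝ)) x = x := by simp
      rw [e0]
      have h1 := S4.bilin_eq (B := fderiv ℝ (fderiv ℝ g) w')
        (A := fun i j => eval w (pderiv i.castSucc (pderiv j.castSucc p)))
        (fun i j => by rw [fderiv_fderiv_slice, hsnw]) x x
      rw [h1]
      have h2 := hneg x hx'
      have h3 : x ⬝ᵥ Matrix.mulVec (fun i j => eval w (pderiv i.castSucc (pderiv j.castSucc p))) x =
          ∑ i, ∑ j, x i * x j * (hess' (P.f (tC q)) (xC w) i j).re := by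
        simp only [dotProduct, Matrix.mulVec]
        refine Finset.sum_congr rfl fun i _ => ?_
        rw [Finset.mul_sum]
        refine Finset.sum_congr rfl fun j _ => ?_
        rw [hess'_real, Complex.ofReal_re]
        ring
      rw [h3]
      exact h2
  obtain ⟨N, hN, hwN, hsub⟩ := hnd.isolated
  have hcont : Continuous fun x : Fin (n + 1) → ℝ => fun i : Fin n => x i.castSucc := by fun_prop
  have hev : ∀ᶠ x in 𝓝 w, (fun i : Fin n => x i.castSucc) ∈ N :=
    hcont.continuousAt.eventually (hN.mem_nhds hwN)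
  filter_upwards [hev] with x hx hxn
  by_contra hcon
  push Not at hcon
  have hxe : S4.sn n (τ, fun i : Fin n => x i.castSucc) = x := by
    funext i
    refine Fin.lastCases ?_ (fun j => ?_) i
    · rw [S4.sn_last]
      exact hxn.symm
    · rw [S4.sn_castSucc]
  have hgx : g (fun i : Fin n => x i.castSucc) = fR P.en P.eta q x := by
    rw [hg]
    simp only
    rw [hxe, hp, eval_fP]
  have h1 := hsub ⟨by rw [mem_ofPred_eq, hgx]; exact hcon.le, hx⟩
  rw [mem_singleton_iff] at h1
  rw [h1] at hgx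
  rw [← hgx, hgw] at hcon
  exact lt_irrefl _ hcon

/-! ## Continuity of shifted values -/

theorem tendsto_shift {K : ℂ → Fnl (n + 1)} {F : Filter ℂ} {x : ℂ} {K₀ : Fnl (n + 1)}
    (hF : F ≤ 𝓝 x) (h : ∀ Q, Tendsto (fun z => K z Q) F (𝓝 (K₀ Q))) (Q : Pol (n + 1)) :
    ∀ R, Tendsto (fun z => K z (R * shift z Q)) F (𝓝 (K₀ (R * shift x Q))) := by
  induction Q using MvPolynomial.induction_on with
  | C a =>
    intro R
    simp only [Loc.shift_C]
    exact h _
  | add p q hp hq =>
    intro R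
    simp only [map_add, mul_add]
    exact (hp R).add (hq R)
  | mul_X p i hp =>
    intro R
    refine Fin.lastCases ?_ (fun j => ?_) i
    · simp only [map_mul, Loc.shift_X_last]
      have e : ∀ (z : ℂ) (y : Fnl (n + 1)), y (R * (shift z p * (X (Fin.last n) + C z))) =
          y ((R * X (Fin.last n)) * shift z p) + z * y (R * shift z p) := by
        intro z y
        have h1 : R * (shift z p * (X (Fin.last n) + C z)) =
            (R * X (Fin.last n)) * shift z p + z • (R * shift z p) := by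
          rw [smul_eq_C_mul]
          ring
        rw [h1, map_add, map_smul, smul_eq_mul]
      simp only [e]
      exact (hp _).add ((tendsto_id.mono_left hF).mul (hp R))
    · simp only [map_mul, Loc.shift_X_castSucc]
      have e : ∀ z : ℂ, R * (shift z p * X j.castSucc) = (R * X j.castSucc) * shift z p := by
        intro z
        ring
      simp only [e]
      exact hp _

/-- Sections are continuous. -/
theorem continuousAt_par {q : Tup n l} {S : Set ℂ} (hS : IsOpen S) {K : ℂ → Fnl (n + 1)}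
    (hK : (VLS P n l).Par (fun z => (q, z)) S K) {x : ℂ} (hx : x ∈ S) (Q : Pol (n + 1)) :
    ContinuousAt (fun z => K z Q) x := by
  obtain ⟨N, y, hN, hs, hev⟩ := hK x hx
  rw [hS.nhdsWithin_eq hx] at hev
  have h1 : ContinuousAt (fun p => y p Q) (q, x) := (hs.2.1 Q).continuousAt (hs.1.mem_nhds hN)
  have h2 : ContinuousAt (fun z : ℂ => y (q, z) Q) x :=
    h1.comp (f := fun z : ℂ => (q, z)) (by fun_prop)
  refine h2.congr ?_
  filter_upwards [hev] with z hz
  rw [hz]

end Pool.Agent.QC.Cyc
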