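import Pool.Agent.QC.Cyc.JJump
import Pool.Agent.QC.LS.Lift

/-!
# MP_7c50a9_lc, section 4.5: labels of real cycles

`JU_label1_of`, `JU_label2`: the statements of `Cyc/Iface.lean`; the first one from the fact that
`JU` is parallel on the half discs (`cyc_V` for the constant family).
-/

namespace Pool.Agent.QC.Cyc

open MvPolynomial Filter Topology Set MeasureTheory
open scoped ContDiff

variable {n l : ℕ} {P : Prm} {q : RTup n l} {T : Set (Fin (n + 1) → ℝ)}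

theorem convex_hDisc (z₀ : ℂ) (r σ : ℝ) : Convex ℝ (hDisc z₀ r σ) := by
  have h1 : hDisc z₀ r σ = Metric.ball z₀ r ∩ {z : ℂ | 0 < σ * (z - z₀).im} := by
    ext z
    simp [hDisc, dist_eq_norm]
  rw [h1]
  refine (convex_ball z₀ r).inter ?_
  intro x hx y hy a b ha hb hab
  have e : σ * ((a • x + b • y) - z₀).im = a * (σ * (x - z₀).im) + b * (σ * (y - z₀).im) := by
    simp only [Complex.sub_im, Complex.add_im, Complex.smul_im, smul_eq_mul]
    have : z₀.im = a * z₀.im + b * z₀.im := by rw [← add_mul, hab, one_mul]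
    linear_combination (-σ) * this
  rw [mem_ofPred_eq, e]
  have hx' : 0 < σ * (x - z₀).im := hx
  have hy' : 0 < σ * (y - z₀).im := hy
  rcases ha.eq_or_lt with h0 | h0
  · rw [← h0, zero_add] at hab
    rw [← h0, hab]
    linarith
  · have h2 : 0 < a * (σ * (x - z₀).im) := mul_pos h0 hx'
    have h3 : 0 ≤ b * (σ * (y - z₀).im) := mul_nonneg hb hy'.le
    linarith

theorem hDisc_subset (z₀ : ℂ) (r σ : ℝ) : hDisc z₀ r σ ⊆ Metric.ball z₀ r \ {z₀} := by
  rintro z ⟨h1, h2⟩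
  refine ⟨by rwa [Metric.mem_ball, dist_eq_norm], fun h3 => ?_⟩
  rw [mem_singleton_iff.mp h3, sub_self, Complex.zero_im, mul_zero] at h2
  exact lt_irrefl _ h2

theorem hDisc_mono {z₀ : ℂ} {r r' σ : ℝ} (h : r ≤ r') : hDisc z₀ r σ ⊆ hDisc z₀ r' σ :=
  fun _ hz => ⟨hz.1.trans_le h, hz.2⟩

/-- Radial extension from a small punctured disc to a big one. -/
theorem extend_ball {W : Type*} (A : LS (Tup n l × ℂ) W) {q : Tup n l} {ζ : ℂ} {r r' : ℝ}
    (hr' : 0 < r') (hX : ∀ z ∈ Metric.ball ζ r, z ≠ ζ → (q, z) ∈ A.X) {H : ℂ → W}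
    (hH : A.Par (fun z => (q, z)) (Metric.ball ζ r' \ {ζ}) H) :
    ∃ K, A.Par (fun z => (q, z)) (Metric.ball ζ r \ {ζ}) K ∧
      ∀ z ∈ Metric.ball ζ r, z ≠ ζ → ‖z - ζ‖ ≤ r' / 2 → K z = H z := by
  set S : Set ℂ := Metric.ball ζ r \ {ζ} with hS
  set lam : ℂ → ℝ := fun z => min 1 (r' / 2 / ‖z - ζ‖) with hlam
  have hne : ∀ z ∈ S, 0 < ‖z - ζ‖ := fun z hz => norm_pos_iff.mpr (sub_ne_zero.mpr hz.2)
  have hlam0 : ∀ z ∈ S, 0 < lam z := fun z hz =>
    lt_min one_pos (div_pos (by positivity) (hne z hz))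
  have hlam1 : ∀ z, lam z ≤ 1 := fun z => min_le_left _ _
  have hlamc : ContinuousOn lam S := by
    have h1 : ContinuousOn (fun z : ℂ => r' / 2 / ‖z - ζ‖) S :=
      ContinuousOn.div continuousOn_const (by fun_prop) fun z hz => (hne z hz).ne'
    intro z hz
    exact (continuousWithinAt_const (b := (1 : ℝ))).min (h1 z hz)
  set g : ℂ × ℝ → ℂ := fun p => ζ + (((1 - p.2) * lam p.1 + p.2 : ℝ) : ℂ) * (p.1 - ζ) with hg
  have hgc : ContinuousOn g (S ×ˢ Icc (0 : ℝ) 1) := by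
    have h1 : ContinuousOn (fun p : ℂ × ℝ => lam p.1) (S ×ˢ Icc (0 : ℝ) 1) :=
      hlamc.comp continuousOn_fst fun p hp => hp.1
    have h2 : ContinuousOn (fun p : ℂ × ℝ => (((1 - p.2) * lam p.1 + p.2 : ℝ) : ℂ))
        (S ×ˢ Icc (0 : ℝ) 1) :=
      Complex.continuous_ofReal.comp_continuousOn
        (((continuousOn_const.sub continuousOn_snd).mul h1).add continuousOn_snd)
    exact continuousOn_const.add (h2.mul (continuousOn_fst.sub continuousOn_const))
  have hρ : ∀ p ∈ S ×ˢ Icc (0 : ℝ) 1, 0 < (1 - p.2) * lam p.1 + p.2 ∧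
      (1 - p.2) * lam p.1 + p.2 ≤ 1 := by
    rintro ⟨z, s⟩ ⟨hz, hs0, hs1⟩
    have h1 := hlam0 z hz
    have h2 := hlam1 z
    simp only at hs0 hs1 h1 h2 ⊢
    constructor
    · rcases hs0.eq_or_lt with h3 | h3
      · rw [← h3]
        linarith
      · have : 0 ≤ (1 - s) * lam z := mul_nonneg (by linarith) h1.le
        linarith
    · nlinarith
  have hnorm : ∀ p ∈ S ×ˢ Icc (0 : ℝ) 1, ‖g p - ζ‖ = ((1 - p.2) * lam p.1 + p.2) * ‖p.1 - ζ‖ := by
    intro p hp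
    rw [hg]
    simp only [add_sub_cancel_left]
    rw [norm_mul, Complex.norm_real, Real.norm_eq_abs, abs_of_pos (hρ p hp).1]
  have hgX : MapsTo (fun p => (q, g p)) (S ×ˢ Icc (0 : ℝ) 1) A.X := by
    intro p hp
    refine hX (g p) ?_ ?_
    · rw [Metric.mem_ball, dist_eq_norm, hnorm p hp]
      have h1 : ‖p.1 - ζ‖ < r := by
        have := hp.1.1
        rwa [Metric.mem_ball, dist_eq_norm] at this
      have h2 := (hρ p hp).2
      have h3 := norm_nonneg (p.1 - ζ)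
      nlinarith
    · intro h0
      have h1 := hnorm p hp
      rw [h0, sub_self, norm_zero] at h1
      have := mul_pos (hρ p hp).1 (hne p.1 hp.1)
      linarith
  have hcont : ContinuousOn (fun p => (q, g p)) (S ×ˢ Icc (0 : ℝ) 1) :=
    continuousOn_const.prodMk hgc
  have h0S : ContinuousOn (fun z : ℂ => g (z, 0)) S :=
    hgc.comp (by fun_prop) fun z hz => ⟨hz, le_rfl, zero_le_one⟩
  have hbase : A.Par (fun z : ℂ => (q, g (z, 0))) S (fun z => H (g (z, 0))) := by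
    refine hH.comp (g := fun z : ℂ => g (z, 0)) h0S ?_
    intro z hz
    have hp : ((z, 0) : ℂ × ℝ) ∈ S ×ˢ Icc (0 : ℝ) 1 := ⟨hz, le_rfl, zero_le_one⟩
    have h1 := hnorm (z, 0) hp
    have h2 : (1 - (0 : ℝ)) * lam z + 0 = lam z := by ring
    simp only [h2] at h1
    refine ⟨?_, fun h3 => ?_⟩
    · rw [Metric.mem_ball, dist_eq_norm, h1]
      have h4 : lam z * ‖z - ζ‖ ≤ r' / 2 := by
        have h5 : lam z ≤ r' / 2 / ‖z - ζ‖ := min_le_right _ _
        calc lam z * ‖z - ζ‖ ≤ r' / 2 / ‖z - ζ‖ * ‖z - ζ‖ :=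
              mul_le_mul_of_nonneg_right h5 (norm_nonneg _)
          _ = r' / 2 := div_mul_cancel₀ _ (hne z hz).ne'
      linarith
    · have h3' : g (z, 0) = ζ := h3
      rw [h3', sub_self, norm_zero] at h1
      have := mul_pos (hlam0 z hz) (hne z hz)
      linarith
  obtain ⟨u, hu, hu0⟩ := LS.Par.lift hcont hgX hbase
  have hg1 : ∀ z, g (z, 1) = z := by
    intro z
    simp [hg]
  refine ⟨fun z => u (z, 1), ?_, ?_⟩
  · have hc : ContinuousOn (fun z : ℂ => (z, (1 : ℝ))) S := by fun_prop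
    have h1 := hu.comp (g := fun z : ℂ => (z, (1 : ℝ))) hc fun z hz => ⟨hz, zero_le_one, le_rfl⟩
    refine h1.congr_map ?_
    intro z _
    simp [hg1]
  · intro z hz hzζ hzr
    have hzS : z ∈ S := ⟨hz, hzζ⟩
    have hlz : lam z = 1 := by
      refine min_eq_left ?_
      rw [le_div_iff₀ (hne z hzS), one_mul]
      exact hzr
    have hgz : ∀ s, g (z, s) = z := by
      intro s
      simp [hg, hlz]
    have hm : MapsTo (fun s : ℝ => (z, s)) (Icc (0 : ℝ) 1) (S ×ˢ Icc (0 : ℝ) 1) :=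
      fun s hs => ⟨hzS, hs⟩
    have hc : ContinuousOn (fun s : ℝ => (z, s)) (Icc (0 : ℝ) 1) := by fun_prop
    have h1 := hu.comp hc hm
    have h2 : A.Par ((fun p => (q, g p)) ∘ fun s : ℝ => (z, s)) (Icc (0 : ℝ) 1)
        (fun _ : ℝ => H z) := by
      have hzb : z ∈ Metric.ball ζ r' \ {ζ} := by
        refine ⟨?_, hzζ⟩
        rw [Metric.mem_ball, dist_eq_norm]
        linarith
      have h3 := hH.comp (g := fun _ : ℝ => z) (R := Icc (0 : ℝ) 1) continuousOn_const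
        fun _ _ => hzb
      refine h3.congr_map ?_
      intro s _
      simp [hgz]
    have h3 := LS.Par.unique isPreconnected_Icc (hcont.comp hc hm) (hgX.comp hm) h1 h2
      (left_mem_Icc.mpr zero_le_one) (by
        simp only [Function.comp_apply]
        rw [hu0 z hzS, hgz])
    exact h3 (right_mem_Icc.mpr zero_le_one)

theorem cauchy_one_eq (hT : S4.Piece (fR P.en P.eta q) T univ) (hc : IsCompact (closure T)) {z : ℂ}
    (hz : z.im ≠ 0) :
    JU P.a (fR P.en P.eta q) T z 1 = S4.cauchy (fR P.en P.eta q) T P.a (fun _ => 1) z := by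
  have := JU_shift_eq hT hc hz 1
  rwa [shift_one, wt_one] at this

/-- (4.5, first half). -/
theorem JU_label1_of (hT : S4.Piece (fR P.en P.eta q) T univ) (hc : IsCompact (closure T))
    {ζ r : ℝ} (hr : 0 < r) (hζ : SimpleCV P (tC q) ζ)
    (hX : ∀ z ∈ Metric.ball (ζ : ℂ) r, z ≠ ζ → z ∉ SigF (P.f (tC q)))
    (hno : ∀ x ∈ closure T, x (Fin.last n) = ζ → xC x ∉ CritF (P.f (tC q)))
    (hV : ∀ σ : ℝ, σ = 1 ∨ σ = -1 → (VLS P n l).Par (fun z => (tC q, z)) (hDisc ζ r σ)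
      (JU P.a (fR P.en P.eta q) T)) {σ : ℝ} (hσ : σ = 1 ∨ σ = -1) :
    ∃ K, (VLS P n l).Par (fun z => (tC q, z)) (Metric.ball (ζ : ℂ) r \ {(ζ : ℂ)}) K ∧
      ∀ z ∈ hDisc ζ r σ, K z = JU P.a (fR P.en P.eta q) T z := by
  obtain ⟨r₀, hr₀, hX₀, U, hU, hU1, -, hform⟩ := loc_form P hζ
  set r' := min r r₀ with hr'
  have hr'0 : 0 < r' := lt_min hr hr₀
  obtain ⟨c₁, H₁, hH₁, hH₁p, hK₁⟩ := hform 1 (Or.inl rfl) _ r' hr'0 (min_le_right _ _)
    ((hV 1 (Or.inl rfl)).mono (hDisc_mono (min_le_left _ _)))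
  obtain ⟨c₂, H₂, hH₂, hH₂p, hK₂⟩ := hform (-1) (Or.inr rfl) _ r' hr'0 (min_le_right _ _)
    ((hV (-1) (Or.inr rfl)).mono (hDisc_mono (min_le_left _ _)))
  have hs : ∀ k : ℤ, (k : ℝ) ≠ P.s n := by
    intro k hk
    have h1 : P.a = ((k : ℚ) - (n : ℚ) / 2 : ℚ) := by
      rw [Prm.s] at hk
      push_cast
      linarith
    exact P.irr ⟨_, h1.symm⟩
  have hball : ∀ᶠ z : ℂ in 𝓝 (ζ : ℂ), ‖z - (ζ : ℂ)‖ < r' := by
    filter_upwards [Metric.ball_mem_nhds (ζ : ℂ) hr'0] with z hz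
    rwa [Metric.mem_ball, dist_eq_norm] at hz
  have han : ∀ {g : ℂ → ℂ}, DifferentiableOn ℂ g (Metric.ball (ζ : ℂ) r') →
      AnalyticAt ℂ g (ζ : ℂ) := fun hg => hg.analyticAt (Metric.ball_mem_nhds _ hr'0)
  have hUa : AnalyticAt ℂ (fun z => U z 1) (ζ : ℂ) :=
    (hU 1).analyticAt (Metric.ball_mem_nhds _ hr₀)
  have hreg := hT.label_reg hc (by linarith [P.two_lt] : 1 < P.a) (contDiff_fR q)
    (φ := fun _ => 1) contDiff_const (τ₀ := ζ) (s := P.s n)
    (fun x hx hxn hcr => hno x hx hxn ((critF_iff q x).mpr hcr)) hs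
    (J := fun z => JU P.a (fR P.en P.eta q) T z 1)
    (hp := fun z => H₁ z 1) (up := fun z => c₁ * U z 1) (hm := fun z => H₂ z 1)
    (um := fun z => c₂ * U z 1)
    (Eventually.of_forall fun z hz => cauchy_one_eq hT hc hz)
    (han (hH₁ 1)) (analyticAt_const.mul hUa) (han (hH₂ 1)) (analyticAt_const.mul hUa) ?_ ?_
  · have hc1 : c₁ = 0 := by
      have h1 := hreg.1.self_of_nhds
      exact (mul_eq_zero.mp h1).resolve_right hU1
    have hc2 : c₂ = 0 := by
      have h1 := hreg.2.self_of_nhds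
      exact (mul_eq_zero.mp h1).resolve_right hU1
    -- the small section
    obtain ⟨H, hHp, hHJ⟩ : ∃ H, (VLS P n l).Par (fun z => (tC q, z))
        (Metric.ball (ζ : ℂ) r' \ {(ζ : ℂ)}) H ∧
        ∀ z ∈ hDisc ζ r' σ, H z = JU P.a (fR P.en P.eta q) T z := by
      rcases hσ with rfl | rfl
      · refine ⟨H₁, hH₁p, fun z hz => ?_⟩
        rw [hK₁ z hz, hc1, zero_mul, zero_smul, add_zero]
      · refine ⟨H₂, hH₂p, fun z hz => ?_⟩
        rw [hK₂ z hz, hc2, zero_mul, zero_smul, add_zero]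
    have hXA : ∀ z ∈ Metric.ball (ζ : ℂ) r, z ≠ ζ → (tC q, z) ∈ (VLS P n l).X :=
      fun z hz hz0 => (mem_VLS_X P).mpr ⟨hζ.1, hX z hz hz0⟩
    obtain ⟨K, hK, hKH⟩ := extend_ball (VLS P n l) hr'0 hXA hHp
    refine ⟨K, hK, ?_⟩
    -- a common point
    have hσ2 : σ * σ = 1 := by rcases hσ with rfl | rfl <;> norm_num
    have hσa : |σ| = 1 := by rcases hσ with rfl | rfl <;> norm_num
    set ε := r' / 2 with hε
    have hε0 : 0 < ε := by positivity
    set z₁ : ℂ := ζ + (σ * ε : ℝ) * Complex.I with hz₁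
    have hz₁n : ‖z₁ - ζ‖ = ε := by
      rw [hz₁, add_sub_cancel_left, norm_mul, Complex.norm_I, mul_one, Complex.norm_real,
        Real.norm_eq_abs, abs_mul, hσa, one_mul, abs_of_pos hε0]
    have hz₁i : σ * (z₁ - ζ).im = ε := by
      have : (z₁ - ζ).im = σ * ε := by
        rw [hz₁, add_sub_cancel_left]
        simp
      rw [this, ← mul_assoc, hσ2, one_mul]
    have hz₁' : z₁ ∈ hDisc ζ r' σ := ⟨by rw [hz₁n]; linarith, by rw [hz₁i]; exact hε0⟩
    have hz₁r : z₁ ∈ hDisc ζ r σ := hDisc_mono (min_le_left _ _) hz₁'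
    have heq : K z₁ = JU P.a (fR P.en P.eta q) T z₁ := by
      rw [← hHJ z₁ hz₁']
      exact hKH z₁ (hDisc_subset _ _ _ hz₁r).1 (hDisc_subset _ _ _ hz₁r).2 hz₁n.le
    have hcont : ContinuousOn (fun z : ℂ => (tC q, z)) (hDisc ζ r σ) := by fun_prop
    exact LS.Par.unique (convex_hDisc _ _ _).isPreconnected hcont
      (fun z hz => hXA z (hDisc_subset _ _ _ hz).1 (hDisc_subset _ _ _ hz).2)
      (hK.mono (hDisc_subset _ _ _)) (hV σ hσ) hz₁r heq
  · filter_upwards [hball] with z hz hzi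
    have h1 : z ∈ hDisc ζ r' 1 := ⟨hz, by simpa using hzi⟩
    rw [hK₁ z h1, LinearMap.add_apply, LinearMap.smul_apply, smul_eq_mul]
    ring
  · filter_upwards [hball] with z hz hzi
    have h1 : z ∈ hDisc ζ r' (-1) := ⟨hz, by simpa using hzi⟩
    rw [hK₂ z h1, LinearMap.add_apply, LinearMap.smul_apply, smul_eq_mul]
    ring

/-- (4.5, second half). -/
theorem JU_label2 (hT : S4.Piece (fR P.en P.eta q) T univ) (hc : IsCompact (closure T))
    {ζ r : ℝ} (hr : 0 < r) (hζ : SimpleCV P (tC q) ζ)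
    {w : Fin (n + 1) → ℝ} (hw : xC w ∈ CritF (P.f (tC q))) (hwζ : w (Fin.last n) = ζ)
    (hwT : ∃ O ∈ 𝓝 w, ∀ x ∈ O, 0 < fR P.en P.eta q x → x ∈ T)
    (hneg : ∀ b : Fin n → ℝ, b ≠ 0 →
      ∑ i, ∑ j, b i * b j * (hess' (P.f (tC q)) (xC w) i j).re < 0) {σ : ℝ}
    (hσ : σ = 1 ∨ σ = -1) :
    ¬ ∃ K, (VLS P n l).Par (fun z => (tC q, z)) (Metric.ball (ζ : ℂ) r \ {(ζ : ℂ)}) K ∧
      ∀ z ∈ hDisc ζ r σ, K z = JU P.a (fR P.en P.eta q) T z := by
  rintro ⟨K, hK, hKJ⟩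
  obtain ⟨g, hg, hgK⟩ := loc_single P hζ hr hK 1
  have hga : AnalyticAt ℂ g (ζ : ℂ) := hg.analyticAt (Metric.ball_mem_nhds _ hr)
  obtain ⟨-, w₀, hw₀, hw₀n, hnd, huniq⟩ := hζ
  have hww₀ : xC w = w₀ := huniq (xC w) hw (by rw [← hwζ]; rfl)
  have hcr := (critF_iff q w).mp hw
  have hdn : fderiv ℝ (fR P.en P.eta q) w (Pi.single (Fin.last n) 1) ≠ 0 := by
    intro h0
    have h1 := hnd.2
    rw [← hww₀, eval_pderiv_real, h0] at h1
    exact h1 (by simp)
  have hfs : ContDiff ℝ ∞ (fR P.en P.eta q) := contDiff_fR q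
  -- `w` is in the closure of `T`
  have hwcl : w ∈ closure T := by
    obtain ⟨O, hO, hOT⟩ := hwT
    rw [mem_closure_iff_nhds]
    intro V hV
    set e : Fin (n + 1) → ℝ := Pi.single (Fin.last n) 1 with he
    set d := fderiv ℝ (fR P.en P.eta q) w e with hd
    have hline : HasDerivAt (fun t : ℝ => fR P.en P.eta q (w + t • e)) d 0 := by
      have h1 : HasFDerivAt (fR P.en P.eta q) (fderiv ℝ (fR P.en P.eta q) (w + (0 : ℝ) • e))
          (w + (0 : ℝ) • e) := (hfs.differentiable (by simp)).differentiableAt.hasFDerivAt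
      have h2 := S4.hasDerivAt_line (f := fR P.en P.eta q) (G := fderiv ℝ (fR P.en P.eta q)) h1
      rw [zero_smul, add_zero] at h2
      exact h2
    have hcont : Continuous fun t : ℝ => w + t • e := by fun_prop
    have hnear : ∀ᶠ t : ℝ in 𝓝 0, w + t • e ∈ V ∩ O := by
      have := hcont.tendsto 0
      rw [zero_smul, add_zero] at this
      exact this.eventually (inter_mem hV hO)
    have hpos : ∃ᶠ t : ℝ in 𝓝 0, 0 < fR P.en P.eta q (w + t • e) := by
      intro hcon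
      have hmax : IsLocalMax (fun t : ℝ => fR P.en P.eta q (w + t • e)) 0 := by
        filter_upwards [hcon] with t ht
        have h3 : fR P.en P.eta q (w + (0 : ℝ) • e) = 0 := by
          rw [zero_smul, add_zero]
          exact hcr.1
        rw [h3]
        exact not_lt.mp ht
      exact hdn (hmax.hasDerivAt_eq_zero hline)
    obtain ⟨t, ht1, ht2⟩ := (hpos.and_eventually hnear).exists
    exact ⟨w + t • e, ht2.1, hOT _ ht2.2 ht1⟩
  have hsing := hT.label_sing hc (by linarith [P.two_lt] : 1 < P.a) hfs hcr hdn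
    (slice_max hw hneg) (fun x _ hxn hcx => by
      refine xC_injective ?_
      rw [hww₀]
      refine huniq (xC x) ((critF_iff q x).mpr hcx) ?_
      rw [← hwζ, ← hxn]
      rfl) hwcl
  rw [hwζ] at hsing
  have hball : ∀ᶠ z : ℂ in 𝓝 (ζ : ℂ), ‖z - (ζ : ℂ)‖ < r := by
    filter_upwards [Metric.ball_mem_nhds (ζ : ℂ) hr] with z hz
    rwa [Metric.mem_ball, dist_eq_norm] at hz
  have hfin : ∀ z ∈ hDisc ζ r σ, z.im ≠ 0 →
      S4.cauchy (fR P.en P.eta q) T P.a (fun _ => 1) z = g z := by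
    intro z hz hzi
    have h1 := hDisc_subset _ _ _ hz
    rw [hgK z h1.1 h1.2, hKJ z hz, cauchy_one_eq hT hc hzi]
  rcases hσ with rfl | rfl
  · refine hsing.1 ⟨g, hga, ?_⟩
    filter_upwards [hball] with z hz hzi
    exact hfin z ⟨hz, by simpa using hzi⟩ hzi.ne'
  · refine hsing.2 ⟨g, hga, ?_⟩
    filter_upwards [hball] with z hz hzi
    exact hfin z ⟨hz, by simpa using hzi⟩ hzi.ne

end Pool.Agent.QC.Cyc
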