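import Pool.Agent.QC.Cyc.Frame
import Pool.Agent.QC.Cyc.JLabel
import Pool.Agent.QC.Cyc.Single
import Pool.Agent.QC.S4.CycV

/-!
# MP_7c50a9_lc, section 4: real cycles, interface

`frame_cycle` is in Cyc/FrameCycle.lean, the jump lemma in Cyc/JumpC.lean.
-/

namespace Pool.Agent.QC

open MvPolynomial Filter Topology Set MeasureTheory

variable {n l : ℕ} {P : Prm}

/-! ## Families -/

section Family

variable {I : Set ℝ} {h : ℝ → RTup n l} {T : Set (ℝ × (Fin (n + 1) → ℝ))}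

theorem cyc_V (H : RFam P I h T) (hs : ∀ s ∈ I, SingF (P.f (tC (h s))) = ∅) {R : ℝ}
    (hR : ∀ p ∈ T, |p.2 (Fin.last n)| ≤ R) :
    (VLS P n l).Par (fun p : ℝ × ℂ => (tC (h p.1), p.2))
      {p | p.1 ∈ I ∧ (p.2.im ≠ 0 ∨ R < |p.2.re|) ∧ p.2 ∉ SigF (P.f (tC (h p.1)))}
      (fun p => JU P.a (fR P.en P.eta (h p.1)) (fib T p.1) p.2) :=
  S4.cyc_V H hs hR

theorem cyc_Z (H : RFam P I h T) (hs : ∀ s ∈ I, SingF (P.f (tC (h s))) = ∅) :
    (ZLS P n l).Par (fun s : ℝ => tC (h s)) I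
      (fun s => yU P.a (fR P.en P.eta (h s)) (fib T s)) := by
  exact S4.cyc_Z H hs

/-- No condition on singular points. -/
theorem cyc_S (H : RFam P I h T) :
    (SLS P n l).Par (fun p : ℝ × ℝ => (tC (h p.1), (p.2 : ℂ)))
      {p | p.1 ∈ I ∧ (p.2 : ℂ) ∉ SigF (P.f (tC (h p.1)))}
      (fun p => aU P.a (fR P.en P.eta (h p.1)) (fib T p.1) p.2) := by
  exact S4.cyc_S H

end Family

/-! ## General pieces -/

section Single

variable {q : RTup n l} {T : Set (Fin (n + 1) → ℝ)}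

/-- The value of `yU` on a polynomial. -/
theorem yU_apply (hT : S4.Piece (fR P.en P.eta q) T univ) (hc : IsCompact (closure T))
    (Q : Pol (n + 1)) :
    yU P.a (fR P.en P.eta q) T Q =
      ∫ x, ((S4.pw (fR P.en P.eta q) T P.a x : ℝ) : ℂ) * eval (xC x) Q := by
  exact Cyc.yU_apply hT hc Q

/-- The value of `JU` on a polynomial. -/
theorem JU_apply (hT : S4.Piece (fR P.en P.eta q) T univ) (hc : IsCompact (closure T)) {R : ℝ}
    (hR : ∀ x ∈ T, |x (Fin.last n)| ≤ R) {z : ℂ} (hz : z.im ≠ 0 ∨ R < |z.re|)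
    (Q : Pol (n + 1)) :
    JU P.a (fR P.en P.eta q) T z Q =
      ∫ x, ((S4.pw (fR P.en P.eta q) T P.a x : ℝ) : ℂ) * eval (xC x) (shift (-z) Q) /
        ((x (Fin.last n) : ℂ) - z) := by
  exact Cyc.JU_apply hT hc hR hz Q

/-- The y-part of `JU`. -/
theorem ymap_JU (hT : S4.Piece (fR P.en P.eta q) T univ) (hc : IsCompact (closure T)) {R : ℝ}
    (hR : ∀ x ∈ T, |x (Fin.last n)| ≤ R) {z : ℂ} (hz : z.im ≠ 0 ∨ R < |z.re|) :
    ymap z (JU P.a (fR P.en P.eta q) T z) = yU P.a (fR P.en P.eta q) T := by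
  exact Cyc.ymap_JU hT hc hR hz

/-- Positivity. -/
theorem yU_one_ne (hT : S4.Piece (fR P.en P.eta q) T univ) (hc : IsCompact (closure T))
    (hne : T.Nonempty) : yU P.a (fR P.en P.eta q) T 1 ≠ 0 := by
  exact Cyc.yU_one_ne hT hc hne

/-- Disjoint unions. -/
theorem JU_union {ι : Type*} (s : Finset ι) (U : ι → Set (Fin (n + 1) → ℝ))
    (hT : ∀ i ∈ s, S4.Piece (fR P.en P.eta q) (U i) univ)
    (hc : ∀ i ∈ s, IsCompact (closure (U i)))
    (hd : ∀ i ∈ s, ∀ j ∈ s, i ≠ j → Disjoint (U i) (U j)) {R : ℝ}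
    (hR : ∀ i ∈ s, ∀ x ∈ U i, |x (Fin.last n)| ≤ R) {z : ℂ} (hz : z.im ≠ 0 ∨ R < |z.re|) :
    JU P.a (fR P.en P.eta q) (⋃ i ∈ s, U i) z = ∑ i ∈ s, JU P.a (fR P.en P.eta q) (U i) z := by
  exact Cyc.JU_union s U hT hc hd hR hz

/-- `JU` is a section in `z`. -/
theorem JU_par (hT : S4.Piece (fR P.en P.eta q) T univ) (hc : IsCompact (closure T))
    (hs : SingF (P.f (tC q)) = ∅) {R : ℝ} (hR : ∀ x ∈ T, |x (Fin.last n)| ≤ R) :
    (VLS P n l).Par (fun z => (tC q, z))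
      {z | (z.im ≠ 0 ∨ R < |z.re|) ∧ z ∉ SigF (P.f (tC q))} (JU P.a (fR P.en P.eta q) T) := by
  have h1 := cyc_V (Cyc.rfam_const hT hc) (fun s _ => hs) (R := R) (fun p hp => hR p.2 hp)
  exact h1.comp (g := fun z : ℂ => ((0 : ℝ), z)) (R := {z | (z.im ≠ 0 ∨ R < |z.re|) ∧
    z ∉ SigF (P.f (tC q))}) (Continuous.prodMk_right (0 : ℝ)).continuousOn
    (fun z hz => ⟨mem_univ _, hz.1, hz.2⟩)

/-- OUT. -/
theorem JU_out (hT : S4.Piece (fR P.en P.eta q) T univ) (hc : IsCompact (closure T)) {R R₀ R₁ : ℝ}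
    (hR : ∀ x ∈ T, |x (Fin.last n)| ≤ R) (h0 : R < R₀) (h1 : R₀ < R₁)
    (hs : SingF (P.f (tC q)) = ∅) (hf : ∀ z ∈ ann R₀ R₁, z ∉ SigF (P.f (tC q))) :
    OutSec P R₀ R₁ (tC q) (JU P.a (fR P.en P.eta q) T) := by
  refine Cyc.JU_out_of_par hT hc hR h0 h1 ?_
  refine (JU_par hT hc hs hR).mono fun z hz => ⟨?_, hf z hz⟩
  by_cases him : z.im = 0
  · right
    have h2 : ‖z‖ = |z.re| := by
      have : z = (z.re : ℂ) := Complex.ext rfl (by simpa using him)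
      rw [this, Complex.norm_real, Real.norm_eq_abs, Complex.ofReal_re]
    have h3 : R₀ < ‖z‖ := hz.1
    linarith
  · exact Or.inl him

/-- (4.3) Jump. -/
theorem JU_jump (hT : S4.Piece (fR P.en P.eta q) T univ) (hc : IsCompact (closure T))
    (hs : SingF (P.f (tC q)) = ∅) {τ r : ℝ} (hr : 0 < r)
    (hX : ∀ z ∈ Metric.ball (τ : ℂ) r, z ∉ SigF (P.f (tC q))) {Kp Km : ℂ → Fnl (n + 1)}
    (hKp : (VLS P n l).Par (fun z => (tC q, z)) (Metric.ball (τ : ℂ) r) Kp)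
    (hKm : (VLS P n l).Par (fun z => (tC q, z)) (Metric.ball (τ : ℂ) r) Km)
    (hp : ∀ z ∈ hDisc τ r 1, Kp z = JU P.a (fR P.en P.eta q) T z)
    (hm : ∀ z ∈ hDisc τ r (-1), Km z = JU P.a (fR P.en P.eta q) T z) {x : ℝ}
    (hx : |x - τ| < r) :
    Kp x - Km x = (2 * Real.pi * Complex.I) • sl (aU P.a (fR P.en P.eta q) T x) := by
  exact Cyc.JU_jump hT hc hKp hKm hp hm hx

/-- (4.5, first half) If the closure of `T` contains no critical point over the simple critical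
value `ζ` then `JU` has trivial holonomy at `ζ`, from above (`σ = 1`) and from below. -/
theorem JU_label1 (hT : S4.Piece (fR P.en P.eta q) T univ) (hc : IsCompact (closure T))
    {ζ r : ℝ} (hr : 0 < r) (hζ : SimpleCV P (tC q) ζ)
    (hX : ∀ z ∈ Metric.ball (ζ : ℂ) r, z ≠ ζ → z ∉ SigF (P.f (tC q)))
    (hno : ∀ x ∈ closure T, x (Fin.last n) = ζ → xC x ∉ CritF (P.f (tC q))) {σ : ℝ}
    (hσ : σ = 1 ∨ σ = -1) :
    ∃ K, (VLS P n l).Par (fun z => (tC q, z)) (Metric.ball (ζ : ℂ) r \ {(ζ : ℂ)}) K ∧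
      ∀ z ∈ hDisc ζ r σ, K z = JU P.a (fR P.en P.eta q) T z := by
  refine Cyc.JU_label1_of hT hc hr hζ hX hno (fun σ' hσ' => ?_) hσ
  obtain ⟨R, hR⟩ := hc.isBounded.exists_norm_le
  refine (JU_par hT hc hζ.1 (R := R) fun x hx =>
    (norm_le_pi_norm x (Fin.last n)).trans (hR x (subset_closure hx))).mono fun z hz => ?_
  have hne : z.im ≠ 0 := by
    intro h0
    have h1 := hz.2
    rw [Complex.sub_im, Complex.ofReal_im, h0, sub_zero, mul_zero] at h1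
    exact lt_irrefl _ h1
  refine ⟨Or.inl hne, hX z ?_ fun h0 => hne (by rw [h0]; simp)⟩
  rw [Metric.mem_ball, Complex.dist_eq]
  exact hz.1

/-- (4.5, second half) If the closure of `T` contains the critical point `w` over `ζ`, and `w` is
a nondegenerate maximum of `f` in the slice, then the holonomy is not trivial. -/
theorem JU_label2 (hT : S4.Piece (fR P.en P.eta q) T univ) (hc : IsCompact (closure T))
    {ζ r : ℝ} (hr : 0 < r) (hζ : SimpleCV P (tC q) ζ)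
    (hX : ∀ z ∈ Metric.ball (ζ : ℂ) r, z ≠ ζ → z ∉ SigF (P.f (tC q)))
    {w : Fin (n + 1) → ℝ} (hw : xC w ∈ CritF (P.f (tC q))) (hwζ : w (Fin.last n) = ζ)
    (hwT : ∃ O ∈ 𝓝 w, ∀ x ∈ O, 0 < fR P.en P.eta q x → x ∈ T)
    (hneg : ∀ b : Fin n → ℝ, b ≠ 0 →
      ∑ i, ∑ j, b i * b j * (hess' (P.f (tC q)) (xC w) i j).re < 0) {σ : ℝ}
    (hσ : σ = 1 ∨ σ = -1) :
    ¬ ∃ K, (VLS P n l).Par (fun z => (tC q, z)) (Metric.ball (ζ : ℂ) r \ {(ζ : ℂ)}) K ∧
      ∀ z ∈ hDisc ζ r σ, K z = JU P.a (fR P.en P.eta q) T z := by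
  exact Cyc.JU_label2 hT hc hr hζ hw hwζ hwT hneg hσ

end Single

/-! ## Pieces defined at `eta = 0` -/

section Eta

variable {q : RTup n l} {O : Set (Fin (n + 1) → ℝ)}

theorem Pr.piece (h : Pr q O) : S4.Piece (fR P.en P.eta q) (cyc P q O) univ := by
  exact Cyc.Pr_piece h

theorem Pr.closure (h : Pr q O) : IsCompact (closure (cyc P q O)) ∧
    closure (cyc P q O) ⊆ {x ∈ O | 0 ≤ fR 0 0 q x} := by
  exact Cyc.Pr_closure h

/-- The level family: `t < t₁`. -/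
theorem Pr.level {t₁ : ℝ} (hO : IsOpen O) (hsub : ∀ x ∈ O, inOm q x)
    (h : ∀ t < t₁, IsCompact {x ∈ O | 0 ≤ fR 0 0 (addT q t) x}) :
    RFam P (Iio t₁) (fun t => addT q t) {p | p.2 ∈ cyc P (addT q p.1) O ∧ p.1 < t₁} := by
  exact Cyc.Pr_level hO hsub h

/-- The frame family. -/
theorem Pr.frame (h : Pr q O) (c : Fin n → ℝ) :
    RFam P univ (fun s => shT (s • c) q)
      {p | p.2 ∈ cyc P (shT (p.1 • c) q) (shX (p.1 • c) '' O)} := by
  exact Cyc.Pr_frame h c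

theorem Pr.shX (h : Pr q O) (c : Fin n → ℝ) : Pr (shT c q) (shX c '' O) := by
  exact Cyc.Pr_shX h c

end Eta

end Pool.Agent.QC
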