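import Pool.Agent.QC.An.Iface
import Pool.Agent.QC.S4.Piece

/-!
# MP_7c50a9_lc, section 4: real cycles, definitions
-/

namespace Pool.Agent.QC

open MvPolynomial Filter Topology Set MeasureTheory

/-- The functional with given values on the monomials. -/
noncomputable def fnlOf {m : ℕ} (φ : (Fin m →₀ ℕ) → ℂ) : Fnl m :=
  (basisMonomials (Fin m) ℂ).constr ℂ φ

/-- `P ↦ ∫_T f^a P`. -/
noncomputable def yU {m : ℕ} (a : ℝ) (f : (Fin m → ℝ) → ℝ) (T : Set (Fin m → ℝ)) : Fnl m :=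
  fnlOf fun s => ∫ x, ((S4.pw f T a x : ℝ) : ℂ) * eval (xC x) (monomial s 1)

/-- `P ↦ ∫_T f^a P(x', x_n - z) / (x_n - z)`. -/
noncomputable def JU {n : ℕ} (a : ℝ) (f : (Fin (n + 1) → ℝ) → ℝ) (T : Set (Fin (n + 1) → ℝ))
    (z : ℂ) : Fnl (n + 1) :=
  fnlOf fun s => ∫ x, ((S4.pw f T a x : ℝ) : ℂ) * eval (xC x) (shift (-z) (monomial s 1)) /
    ((x (Fin.last n) : ℂ) - z)

/-- The slice functional `P ↦ ∫_{x_n = τ} f^a P`. -/
noncomputable def aU {n : ℕ} (a : ℝ) (f : (Fin (n + 1) → ℝ) → ℝ) (T : Set (Fin (n + 1) → ℝ))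
    (τ : ℝ) : Fnl n :=
  yU a (fun x : Fin n → ℝ => f (Fin.snoc x τ)) {x : Fin n → ℝ | (Fin.snoc x τ : Fin (n + 1) → ℝ) ∈ T}

/-- The fibre of `T` over the parameter `s`. -/
def fib {X : Type*} (T : Set (ℝ × X)) (s : ℝ) : Set X := {x | (s, x) ∈ T}

/-- Real families of pieces: `T` is a piece of `{f > 0}` over the open interval (or open set)
`I` of parameters, locally uniformly bounded. -/
structure RFam {n l : ℕ} (P : Prm) (I : Set ℝ) (h : ℝ → RTup n l)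
    (T : Set (ℝ × (Fin (n + 1) → ℝ))) : Prop where
  isOpen : IsOpen I
  smooth : ContDiffOn ℝ 1 h I
  piece : S4.Piece (fun p : ℝ × (Fin (n + 1) → ℝ) => fR P.en P.eta (h p.1) p.2) T (I ×ˢ univ)
  bdd : ∀ s ∈ I, ∃ ε > 0, ∃ R, ∀ p ∈ T, |p.1 - s| < ε → ‖p.2‖ ≤ R

/-- `O` is open in `Omega` and `{f ≥ 0} ∩ O` is compact (`eta = 0`). -/
structure Pr {n l : ℕ} (q : RTup n l) (O : Set (Fin (n + 1) → ℝ)) : Prop where
  isOpen : IsOpen O
  sub : ∀ x ∈ O, inOm q x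
  compact : IsCompact {x ∈ O | 0 ≤ fR 0 0 q x}

/-- The piece of `{f^eta > 0}` in `O`. -/
def cyc {n l : ℕ} (P : Prm) (q : RTup n l) (O : Set (Fin (n + 1) → ℝ)) : Set (Fin (n + 1) → ℝ) :=
  {x ∈ O | 0 < fR P.en P.eta q x}

/-- The Cauchy transform of the real cycle of `O`. -/
noncomputable def JC {n l : ℕ} (P : Prm) (q : RTup n l) (O : Set (Fin (n + 1) → ℝ)) (z : ℂ) :
    Fnl (n + 1) :=
  JU P.a (fR P.en P.eta q) (cyc P q O) z

end Pool.Agent.QC
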