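import Pool.Agent.QC.Cyc.JReal

/-!
# MP_7c50a9_lc, section 4.3: the jump of the Cauchy transform of a real cycle
-/

namespace Pool.Agent.QC.Cyc

open MvPolynomial Filter Topology Set MeasureTheory
open scoped ContDiff

variable {n l : ℕ} {P : Prm} {q : RTup n l} {T : Set (Fin (n + 1) → ℝ)}

/-- The slice of a piece in the coordinates `sn`. -/
theorem piece_slice {f : (Fin (n + 1) → ℝ) → ℝ} (hT : S4.Piece f T univ) (τ : ℝ) :
    S4.Piece (fun x : Fin n → ℝ => f (S4.sn n (τ, x))) {x | S4.sn n (τ, x) ∈ T} univ := by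
  have hc : Continuous fun x : Fin n → ℝ => S4.sn n (τ, x) :=
    (S4.sn n).continuous.comp (by fun_prop)
  refine ⟨isOpen_univ, hT.isOpen.preimage hc, subset_univ _, fun x hx => hT.pos _ hx,
    fun x _ hxc hxT => hT.zero _ (mem_univ _) ?_ hxT⟩
  exact map_mem_closure (f := fun x : Fin n → ℝ => S4.sn n (τ, x)) hc hxc fun y hy => hy

theorem slice_compact (hc : IsCompact (closure T)) (τ : ℝ) :
    IsCompact (closure {x : Fin n → ℝ | S4.sn n (τ, x) ∈ T}) := by
  obtain ⟨C, hC, hTC⟩ := S4.exists_compact_slice hc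
  exact hC.of_isClosed_subset isClosed_closure
    (closure_minimal (fun x hx => hTC (τ, x) hx) hC.isClosed)

/-- The weight of a polynomial. -/
noncomputable def wt (Q : Pol (n + 1)) (x : Fin (n + 1) → ℝ) : ℂ := eval (xC x) Q

theorem continuous_wt (Q : Pol (n + 1)) : Continuous (wt Q) := continuous_eval_xC Q

/-- The slice functional on polynomials. -/
theorem aU_apply (hT : S4.Piece (fR P.en P.eta q) T univ) (hc : IsCompact (closure T)) (τ : ℝ)
    (Q : Pol (n + 1)) :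
    sl (aU P.a (fR P.en P.eta q) T τ) (shift τ Q) =
      S4.slI (fR P.en P.eta q) T P.a (wt Q) τ := by
  have ha : 0 < P.a := by linarith [P.two_lt]
  have hcont : Continuous fun x : Fin n → ℝ => fR P.en P.eta q (S4.sn n (τ, x)) :=
    (continuous_fR q P.en P.eta).comp ((S4.sn n).continuous.comp (by fun_prop))
  have h1 := S4.yU_apply' (piece_slice hT τ) (slice_compact hc τ) ha hcont (slice (shift τ Q))
  have h2 : sl (aU P.a (fR P.en P.eta q) T τ) (shift τ Q) =
      yU P.a (fun x : Fin n → ℝ => fR P.en P.eta q (S4.sn n (τ, x)))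
        {x | S4.sn n (τ, x) ∈ T} (slice (shift τ Q)) := rfl
  rw [h2, h1, S4.slI]
  refine integral_congr_ae (Eventually.of_forall fun x => ?_)
  simp only
  rw [S4.pw_comp _ T P.a (fun x : Fin n → ℝ => S4.sn n (τ, x)) x, Complex.real_smul, wt,
    Loc.eval_slice, Loc.eval_shift]
  congr 2
  congr 1
  funext i
  refine Fin.lastCases ?_ (fun j => ?_) i
  · rw [Loc.sx_last, Fin.snoc_last, zero_add, xC, S4.sn_last]
  · rw [Loc.sx_castSucc, Fin.snoc_castSucc, xC, xC, S4.sn_castSucc]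

/-- `JU` on shifted polynomials is the Cauchy transform. -/
theorem JU_shift_eq (hT : S4.Piece (fR P.en P.eta q) T univ) (hc : IsCompact (closure T)) {z : ℂ}
    (hz : z.im ≠ 0) (Q : Pol (n + 1)) :
    JU P.a (fR P.en P.eta q) T z (shift z Q) = S4.cauchy (fR P.en P.eta q) T P.a (wt Q) z := by
  obtain ⟨R, hR⟩ := hc.isBounded.exists_norm_le
  have hR' : ∀ x ∈ T, |x (Fin.last n)| ≤ R := fun x hx => by
    have h1 := hR x (subset_closure hx)
    rw [← Real.norm_eq_abs]
    exact (norm_le_pi_norm x (Fin.last n)).trans h1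
  rw [JU_shift hT hc hR' (Or.inl hz), S4.cauchy]
  refine integral_congr_ae (Eventually.of_forall fun x => ?_)
  simp only [wt, Complex.real_smul, mul_div_assoc]

theorem shift_one (z : ℂ) : shift z (1 : Pol (n + 1)) = 1 := map_one _

theorem wt_one : wt (1 : Pol (n + 1)) = fun _ => 1 := by
  funext x
  simp [wt]

/-- Half disc and half plane. -/
theorem hDisc_mem_nhdsWithin {τ r x : ℝ} (hx : |x - τ| < r) :
    (∀ᶠ z in 𝓝[{z : ℂ | 0 < z.im}] (x : ℂ), z ∈ hDisc τ r 1) ∧
      ∀ᶠ z in 𝓝[{z : ℂ | z.im < 0}] (x : ℂ), z ∈ hDisc τ r (-1) := by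
  have h1 : ∀ᶠ z : ℂ in 𝓝 (x : ℂ), ‖z - (τ : ℂ)‖ < r := by
    have hcont : Continuous fun z : ℂ => ‖z - (τ : ℂ)‖ := by fun_prop
    refine hcont.continuousAt.eventually (gt_mem_nhds ?_)
    show ‖(x : ℂ) - (τ : ℂ)‖ < r
    rw [← Complex.ofReal_sub, Complex.norm_real, Real.norm_eq_abs]
    exact hx
  constructor
  · filter_upwards [h1.filter_mono nhdsWithin_le_nhds, self_mem_nhdsWithin] with z h2 h3
    have h3' : 0 < z.im := h3
    refine ⟨h2, ?_⟩
    simpa using h3'
  · filter_upwards [h1.filter_mono nhdsWithin_le_nhds, self_mem_nhdsWithin] with z h2 h3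
    have h3' : z.im < 0 := h3
    refine ⟨h2, ?_⟩
    simpa using h3'

/-- (4.3) Jump. -/
theorem JU_jump (hT : S4.Piece (fR P.en P.eta q) T univ) (hc : IsCompact (closure T))
    {τ r : ℝ} {Kp Km : ℂ → Fnl (n + 1)}
    (hKp : (VLS P n l).Par (fun z => (tC q, z)) (Metric.ball (τ : ℂ) r) Kp)
    (hKm : (VLS P n l).Par (fun z => (tC q, z)) (Metric.ball (τ : ℂ) r) Km)
    (hp : ∀ z ∈ hDisc τ r 1, Kp z = JU P.a (fR P.en P.eta q) T z)
    (hm : ∀ z ∈ hDisc τ r (-1), Km z = JU P.a (fR P.en P.eta q) T z) {x : ℝ}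
    (hx : |x - τ| < r) :
    Kp x - Km x = (2 * Real.pi * Complex.I) • sl (aU P.a (fR P.en P.eta q) T x) := by
  have ha : 0 < P.a := by linarith [P.two_lt]
  have hxb : (x : ℂ) ∈ Metric.ball (τ : ℂ) r := by
    rw [Metric.mem_ball, dist_eq_norm, ← Complex.ofReal_sub, Complex.norm_real, Real.norm_eq_abs]
    exact hx
  obtain ⟨hup, hdn⟩ := hDisc_mem_nhdsWithin hx
  refine LinearMap.ext fun Q' => ?_
  -- write `Q' = shift x Q`
  obtain ⟨Q, rfl⟩ : ∃ Q, shift (x : ℂ) Q = Q' := ⟨shift (-x : ℂ) Q', by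
    have := shift_shift_neg (n := n) (-x : ℂ) Q'
    rwa [neg_neg] at this⟩
  have hlim : ∀ {K : ℂ → Fnl (n + 1)} {F : Filter ℂ}, F ≤ 𝓝 (x : ℂ) →
      (VLS P n l).Par (fun z => (tC q, z)) (Metric.ball (τ : ℂ) r) K →
      Tendsto (fun z => K z (shift z Q)) F (𝓝 (K x (shift x Q))) := by
    intro K F hF hK
    have := tendsto_shift hF (fun Q => ((continuousAt_par Metric.isOpen_ball hK hxb Q).tendsto
      ).mono_left hF) Q 1
    simpa only [one_mul] using this
  have h1 : Tendsto (S4.cauchy (fR P.en P.eta q) T P.a (wt Q)) (𝓝[{z | 0 < z.im}] (x : ℂ))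
      (𝓝 (Kp x (shift x Q))) := by
    refine (hlim nhdsWithin_le_nhds hKp).congr' ?_
    filter_upwards [hup, self_mem_nhdsWithin] with z hz hz2
    have hz2' : 0 < z.im := hz2
    rw [hp z hz, JU_shift_eq hT hc hz2'.ne']
  have h2 : Tendsto (S4.cauchy (fR P.en P.eta q) T P.a (wt Q)) (𝓝[{z | z.im < 0}] (x : ℂ))
      (𝓝 (Km x (shift x Q))) := by
    refine (hlim nhdsWithin_le_nhds hKm).congr' ?_
    filter_upwards [hdn, self_mem_nhdsWithin] with z hz hz2
    have hz2' : z.im < 0 := hz2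
    rw [hm z hz, JU_shift_eq hT hc hz2'.ne]
  rw [LinearMap.sub_apply, LinearMap.smul_apply, smul_eq_mul, aU_apply hT hc,
    hT.jump_eq hc ha (continuous_fR q P.en P.eta) (continuous_wt Q) h1 h2]

end Pool.Agent.QC.Cyc
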